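import Pool.Agent.Lib.P901b45u.Red
import Pool.Agent.Lib.P901b45d.Base

/-!
Almost uniform functions, in the form used for the removal of comparable pairs (MP_901b45_co).
-/

set_option autoImplicit false

namespace Pool.Agent.P901b45f

open Finset Pool.Agent.P901b45e Pool.Agent.P901b45d

/-- `g` is almost uniform on `I`: for some `t ≥ 1`
* it is at most `card + t + 1`, or no integral vector `u` with entries `0, 1, 2` on `I` such that `u`
  and `2 - u` satisfy the inequalities of `g` has exactly `t + 1` entries `2` and `t + 1` entries `0`;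
* `t = 1`, or `g` is at least `card + min (card S, card (I \ S), t)`. -/
def Almost {α : Type*} [DecidableEq α] (I : Finset α) (g : Finset α → ℤ) : Prop :=
  ∃ t : ℕ, 1 ≤ t ∧
    ((∀ S ⊆ I, g S ≤ (S.card : ℤ) + t + 1) ∨
      ¬ ∃ u : α → ℤ, (∀ i ∈ I, 0 ≤ u i ∧ u i ≤ 2) ∧ (∀ S ⊆ I, ∑ i ∈ S, u i ≤ g S) ∧
        (∀ S ⊆ I, ∑ i ∈ S, (2 - u i) ≤ g S) ∧
        (I.filter (fun i => u i = 2)).card = t + 1 ∧
        (I.filter (fun i => u i = 0)).card = t + 1) ∧
    (t = 1 ∨ ∀ S ⊆ I, (S.card : ℤ) + min (S.card : ℤ) (min ((I \ S).card : ℤ) t) ≤ g S)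

theorem ov_sep {α : Type*} [DecidableEq α] {f : Finset α → ℤ} {v : α → ℤ} (h0 : f ∅ = 0)
    {A : Finset α} (h : P901b45u.OV f v A) :
    ∀ i ∈ A, ∀ j ∈ A, i ≠ j → ∃ X ⊆ A, ∑ e ∈ X, v e = f X ∧
      ((i ∈ X ∧ j ∉ X) ∨ (j ∈ X ∧ i ∉ X)) := by
  induction h with
  | nil => intro i hi; exact absurd hi (notMem_empty i)
  | cons A e he h ht ih =>
    intro i hi j hj hij
    rcases mem_insert.1 hi with rfl | hi'
    · rcases mem_insert.1 hj with rfl | hj'
      · exact absurd rfl hij
      · exact ⟨A, subset_insert _ _, h.tight h0, Or.inr ⟨hj', he⟩⟩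
    · rcases mem_insert.1 hj with rfl | hj'
      · exact ⟨A, subset_insert _ _, h.tight h0, Or.inl ⟨hi', he⟩⟩
      · obtain ⟨X, hX, h1, h2⟩ := ih i hi' j hj' hij
        exact ⟨X, hX.trans (subset_insert _ _), h1, h2⟩

/-- almost uniform functions have a solution -/
theorem sol_of_almost {α : Type} [DecidableEq α] {G : Finset α} {h : Finset α → ℤ}
    (hh : Sub G h) (hG : h G = 0) (ha : Almost G (fun S => h S + S.card)) : ∃ x, Sol G h x := by
  have hins : ∀ A ⊆ G, ∀ e ∈ G, h A + (A.card : ℤ) ≤ h (insert e A) + ((insert e A).card : ℤ) := by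
    intro A hA e he
    by_cases h1 : e ∈ A
    · rw [insert_eq_of_mem h1]
    · rw [card_insert_of_notMem h1]
      have := hh.down A hA e he
      push_cast
      linarith
  have hmono : ∀ B : Finset α, B ⊆ G → ∀ A ⊆ B, h A + (A.card : ℤ) ≤ h B + (B.card : ℤ) := by
    intro B hB A hA
    have key : ∀ C ⊆ B, h A + (A.card : ℤ) ≤ h (A ∪ C) + ((A ∪ C).card : ℤ) := by
      intro C
      induction C using Finset.induction_on with
      | empty => intro _; rw [union_empty]
      | insert c C _ ih =>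
        intro hC
        have h1 := ih ((subset_insert _ _).trans hC)
        have h2 := hins (A ∪ C) (union_subset (hA.trans hB) (((subset_insert _ _).trans hC).trans hB))
          c (hB (hC (mem_insert_self _ _)))
        rw [union_insert]
        linarith
    have h1 := key B (Subset.refl _)
    rwa [union_eq_right.2 hA] at h1
  have hPm : P901b45u.Pm G (fun S => h S + S.card) := by
    refine ⟨by simp [hh.empty], fun A B hAB hB => hmono B hB A hAB, ?_, ?_, ?_⟩
    · intro A hA B hB
      have e1 := hh.sub A hA B hB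
      have e2 : ((A ∪ B).card : ℤ) + (A ∩ B).card = A.card + B.card := by
        exact_mod_cast card_union_add_card_inter A B
      show h (A ∪ B) + ((A ∪ B).card : ℤ) + (h (A ∩ B) + ((A ∩ B).card : ℤ)) ≤
        h A + (A.card : ℤ) + (h B + (B.card : ℤ))
      linarith
    · intro e he
      have h1 := hh.up ∅ (empty_subset _) e he
      rw [hh.empty] at h1
      have h2 : h {e} ≤ 1 := by simpa using h1
      show h {e} + (({e} : Finset α).card : ℤ) ≤ 2
      rw [card_singleton]
      push_cast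
      linarith
    · intro A hA
      have := hh.nonneg A hA
      show (A.card : ℤ) ≤ h A + (A.card : ℤ)
      linarith
  have hcls : P901b45u.Cls G (fun S => h S + S.card) := by
    obtain ⟨t, ht, h1, h2⟩ := ha
    refine ⟨t, ht, h2, h1.imp id fun h3 => ?_⟩
    intro u a1 a2 a3 a4 a5 a6
    exact h3 ⟨u, fun i hi => ⟨a1 i hi, a2 i hi⟩, a3, a4, a5, a6⟩
  obtain ⟨v, hv⟩ := P901b45u.base G.card G _ rfl hPm hcls (by
    show h G + (G.card : ℤ) = G.card
    rw [hG, zero_add])
  have hsum : ∀ A : Finset α, ∑ i ∈ A, (v i - 1) = ∑ i ∈ A, v i - A.card := by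
    intro A
    rw [sum_sub_distrib]
    simp
  refine ⟨fun i => v i - 1, ?_, ?_, ?_, ?_⟩
  · intro A hA
    have h1 : ∑ i ∈ A, v i ≤ h A + (A.card : ℤ) :=
      hv.ov.le G hPm.zero hPm.sub (Subset.refl _) A hA
    rw [hsum]
    linarith
  · intro A hA
    have h1 : 2 * (A.card : ℤ) - ∑ i ∈ A, v i ≤ h A + (A.card : ℤ) := hv.compl A hA
    rw [hsum]
    linarith
  · have h1 : ∑ i ∈ G, v i = h G + (G.card : ℤ) := hv.ov.tight hPm.zero
    rw [hsum]
    linarith
  · intro i hi j hj hij
    obtain ⟨X, hX, h1, h2⟩ := ov_sep hPm.zero hv.ov i hi j hj hij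
    have h3 : ∑ i ∈ X, v i = h X + (X.card : ℤ) := h1
    exact ⟨X, hX, by rw [hsum]; linarith, h2⟩

end Pool.Agent.P901b45f
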