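import Pool.Agent.Lib.P901b45f.KS0
import Pool.Agent.Lib.P901b45f.KS1
import Pool.Agent.Lib.P901b45f.KS2
import Pool.Agent.Lib.P901b45f.KS3

/-!
The second refutation (MP_901b45_co).
-/

set_option autoImplicit false
set_option maxRecDepth 100000

namespace Pool.Agent.P901b45f

theorem allR_node {p : ℕ → Bool} {d i : ℕ} (h1 : allR p d (2 * i) = true)
    (h2 : allR p d (2 * i + 1) = true) : allR p (d + 1) i = true := by
  rw [allR, h1, cond_true]
  exact h2

theorem kn9_0 : allR (chk dbS axS 7 2169 4093 154) 9 0 = true :=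
  allR_node (i := 0) ks0 ks1

theorem kn9_1 : allR (chk dbS axS 7 2169 4093 154) 9 1 = true :=
  allR_node (i := 1) ks2 ks3

theorem kn9_2 : allR (chk dbS axS 7 2169 4093 154) 9 2 = true :=
  allR_node (i := 2) ks4 ks5

theorem kn9_3 : allR (chk dbS axS 7 2169 4093 154) 9 3 = true :=
  allR_node (i := 3) ks6 ks7

theorem kn9_4 : allR (chk dbS axS 7 2169 4093 154) 9 4 = true :=
  allR_node (i := 4) ks8 ks9

theorem kn9_5 : allR (chk dbS axS 7 2169 4093 154) 9 5 = true :=
  allR_node (i := 5) ks10 ks11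

theorem kn9_6 : allR (chk dbS axS 7 2169 4093 154) 9 6 = true :=
  allR_node (i := 6) ks12 ks13

theorem kn9_7 : allR (chk dbS axS 7 2169 4093 154) 9 7 = true :=
  allR_node (i := 7) ks14 ks15

theorem kn10_0 : allR (chk dbS axS 7 2169 4093 154) 10 0 = true :=
  allR_node (i := 0) kn9_0 kn9_1

theorem kn10_1 : allR (chk dbS axS 7 2169 4093 154) 10 1 = true :=
  allR_node (i := 1) kn9_2 kn9_3

theorem kn10_2 : allR (chk dbS axS 7 2169 4093 154) 10 2 = true :=
  allR_node (i := 2) kn9_4 kn9_5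

theorem kn10_3 : allR (chk dbS axS 7 2169 4093 154) 10 3 = true :=
  allR_node (i := 3) kn9_6 kn9_7

theorem kn11_0 : allR (chk dbS axS 7 2169 4093 154) 11 0 = true :=
  allR_node (i := 0) kn10_0 kn10_1

theorem kn11_1 : allR (chk dbS axS 7 2169 4093 154) 11 1 = true :=
  allR_node (i := 1) kn10_2 kn10_3

theorem kn12_0 : allR (chk dbS axS 7 2169 4093 154) 12 0 = true :=
  allR_node (i := 0) kn11_0 kn11_1

theorem refS {H : ℕ → ℕ} (hH : Hyp H 7) : False :=
  refute hH (db := dbS) (aux := axS) (n0 := 2169) (n := 4093) (fuel := 154) (d := 12)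
    kn12_0 (by norm_num) (by decide +kernel)

end Pool.Agent.P901b45f
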