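import Pool.Agent.Lib.P901b45f.DataF
import Pool.Agent.Lib.P901b45f.DataT

/-!
Functions with values at most three on the subsets of an 8-element set (MP_901b45_co).
-/

set_option autoImplicit false

namespace Pool.Agent.P901b45f

theorem down_chk : allR (fun S => Nat.beq S 0 || (List.range 8).any (fun e =>
    S.testBit e && !(Nat.sub S (Nat.pow 2 e)).testBit e &&
      Nat.beq (Nat.lor (Nat.sub S (Nat.pow 2 e)) (Nat.pow 2 e)) S &&
      Nat.beq (pc S) (pc (Nat.sub S (Nat.pow 2 e)) + 1) &&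
      Nat.blt (Nat.sub S (Nat.pow 2 e)) S)) 8 0 = true := by decide +kernel

theorem down_ex {S : ℕ} (hS : S < 256) (h0 : S ≠ 0) : ∃ e < 8, ∃ S' < S,
    S'.testBit e = false ∧ S' ||| 2 ^ e = S ∧ pc S = pc S' + 1 := by
  have h := allR_sound 8 0 down_chk S (by omega) (by omega)
  simp only [Bool.or_eq_true, List.any_eq_true, Bool.and_eq_true, List.mem_range,
    Bool.not_eq_true'] at h
  rcases h with h | ⟨e, he, ⟨⟨⟨_, h2⟩, h3⟩, h4⟩, h5⟩
  · exact absurd (Nat.eq_of_beq_eq_true h) h0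
  · refine ⟨e, he, Nat.sub S (Nat.pow 2 e), ?_, h2, Nat.eq_of_beq_eq_true h3,
      Nat.eq_of_beq_eq_true h4⟩
    exact Nat.le_of_ble_eq_true h5

theorem le_pc {H : ℕ → ℕ} (h0 : H 0 = 0)
    (hl : ∀ S < 256, ∀ e < 8, S.testBit e = false →
      H (S ||| 2 ^ e) ≤ H S + 1 ∧ H S ≤ H (S ||| 2 ^ e) + 1) :
    ∀ S < 256, H S ≤ pc S := by
  intro S
  induction S using Nat.strong_induction_on with
  | _ S ih =>
  intro hS
  by_cases h1 : S = 0
  · rw [h1, h0]; exact Nat.zero_le _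
  · obtain ⟨e, he, S', hS', h2, h3, h4⟩ := down_ex hS h1
    have h5 := ih S' hS' (by omega)
    have h6 := (hl S' (by omega) e he h2).1
    rw [h3] at h6
    omega

theorem up_chk : allR (fun S => Nat.beq S 255 || (List.range 8).any (fun e =>
    !S.testBit e && Nat.blt (Nat.lor S (Nat.pow 2 e)) 256 &&
      Nat.beq (pc (Nat.lor S (Nat.pow 2 e))) (pc S + 1) &&
      Nat.blt S (Nat.lor S (Nat.pow 2 e)))) 8 0 = true := by decide +kernel

theorem up_ex {S : ℕ} (hS : S < 256) (h0 : S ≠ 255) : ∃ e < 8, S.testBit e = false ∧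
    S ||| 2 ^ e < 256 ∧ pc (S ||| 2 ^ e) = pc S + 1 ∧ S < S ||| 2 ^ e := by
  have h := allR_sound 8 0 up_chk S (by omega) (by omega)
  simp only [Bool.or_eq_true, List.any_eq_true, Bool.and_eq_true, List.mem_range,
    Bool.not_eq_true'] at h
  rcases h with h | ⟨e, he, ⟨⟨h1, h2⟩, h3⟩, h5⟩
  · exact absurd (Nat.eq_of_beq_eq_true h) h0
  · exact ⟨e, he, h1, Nat.le_of_ble_eq_true h2, Nat.eq_of_beq_eq_true h3,
      Nat.le_of_ble_eq_true h5⟩

theorem le_cpc {H : ℕ → ℕ} (hF : H 255 = 0)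
    (hl : ∀ S < 256, ∀ e < 8, S.testBit e = false →
      H (S ||| 2 ^ e) ≤ H S + 1 ∧ H S ≤ H (S ||| 2 ^ e) + 1) :
    ∀ k S : ℕ, S < 256 → 255 - S ≤ k → H S + pc S ≤ 8 := by
  intro k
  induction k with
  | zero =>
    intro S hS hk
    have : S = 255 := by omega
    subst this
    rw [hF]
    exact le_of_eq (by decide)
  | succ k ih =>
    intro S hS hk
    by_cases h1 : S = 255
    · subst h1
      rw [hF]
      exact le_of_eq (by decide)
    · obtain ⟨e, he, h2, h3, h4, h5⟩ := up_ex hS h1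
      have h6 := ih (S ||| 2 ^ e) h3 (by omega)
      have h7 := (hl S hS e he h2).2
      omega

theorem fin8 (H : ℕ → ℕ) (t : ℕ) (ht5 : t = 5 ∨ t = 7)
    (h0 : H 0 = 0) (hF : H 255 = 0)
    (h1 : ∀ S, 0 < S → S < 255 → 1 ≤ H S)
    (h3 : ∀ S < 256, H S ≤ 3)
    (hl : ∀ S < 256, ∀ e < 8, S.testBit e = false →
      H (S ||| 2 ^ e) ≤ H S + 1 ∧ H S ≤ H (S ||| 2 ^ e) + 1)
    (hs : ∀ B < 256, ∀ a < 8, ∀ b < 8, a ≠ b → B.testBit a = false → B.testBit b = false →
      H (B ||| 2 ^ a ||| 2 ^ b) + H B ≤ H (B ||| 2 ^ a) + H (B ||| 2 ^ b))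
    (hx : ∀ S < 256, pc (S &&& 3) ≤ H S + pc (S &&& 12) ∧ pc (S &&& 12) ≤ H S + pc (S &&& 3))
    (ht : ∀ S < 256, S.testBit 4 ≠ S.testBit 5 → pc (S &&& 3) + 1 ≤ H S + pc (S &&& 12))
    (hm : ∀ S < 256, S.testBit 6 ≠ S.testBit t → pc (S &&& 12) + 1 ≤ H S + pc (S &&& 3))
    (hy : ∀ P < 256, ∀ N < 256, P &&& N = 0 → pc P = 3 → pc N = 3 →
      ∃ S < 256, H S + pc (S &&& N) < pc (S &&& P) ∨ H S + pc (S &&& P) < pc (S &&& N)) :
    False := by
  have hlo : ∀ S < 256, lo S ≤ H S := by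
    intro S hS
    unfold lo
    cases h4 : Nat.beq S 0 || Nat.beq S 255 with
    | true => exact Nat.zero_le _
    | false =>
      rw [Bool.or_eq_false_iff] at h4
      have h5 : S ≠ 0 := by
        rintro rfl
        exact absurd h4.1 (by decide)
      have h6 : S ≠ 255 := by
        rintro rfl
        exact absurd h4.2 (by decide)
      exact h1 S (by omega) (by omega)
  have hhi : ∀ S < 256, H S ≤ hi S := by
    intro S hS
    have h4 := le_pc h0 hl S hS
    have h5 := le_cpc hF hl 255 S hS (by omega)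
    have h6 := h3 S hS
    unfold hi
    exact le_min h6 (le_min h4 (by omega))
  have hH : Hyp H t := ⟨hlo, hhi, fun S hS e he h => (hl S hS e he h).1,
    fun S hS e he h => (hl S hS e he h).2, hs, fun S hS => (hx S hS).1, fun S hS => (hx S hS).2,
    ht, hm, hy⟩
  rcases ht5 with rfl | rfl
  · exact refF hH
  · exact refS hH

end Pool.Agent.P901b45f
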