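import Pool.Agent.Lib.P901b45d.Seven
import Pool.Agent.Lib.P901b45f.Fin8

/-!
The bridge from sets to bit masks for the finite statement `fin8`.
-/

set_option autoImplicit false

namespace Pool.Agent.P901b45f

open Finset Pool.Agent.P901b45e Pool.Agent.P901b45d

namespace Bridge8Aux

variable {α : Type*} [DecidableEq α]

/-- the set with the mask `m` -/
def W (c : ℕ → α) (m : ℕ) : Finset α := ((range 8).filter (fun i => m.testBit i = true)).image c

theorem mem_W {c : ℕ → α} (hc : ∀ i < 8, ∀ j < 8, c i = c j → i = j) {m i : ℕ} (hi : i < 8) :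
    c i ∈ W c m ↔ m.testBit i = true := by
  unfold W
  rw [mem_image]
  constructor
  · rintro ⟨j, hj, h⟩
    rw [mem_filter, mem_range] at hj
    rw [← hc j hj.1 i hi h]
    exact hj.2
  · intro h
    exact ⟨i, by rw [mem_filter, mem_range]; exact ⟨hi, h⟩, rfl⟩

theorem W_ext {c : ℕ → α} (hc : ∀ i < 8, ∀ j < 8, c i = c j → i = j) {m : ℕ} {A : Finset α}
    (hA : A ⊆ (range 8).image c) (h : ∀ i < 8, (m.testBit i = true ↔ c i ∈ A)) : W c m = A := by
  ext e
  constructor
  · intro he
    unfold W at he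
    rw [mem_image] at he
    obtain ⟨i, hi, rfl⟩ := he
    rw [mem_filter, mem_range] at hi
    exact (h i hi.1).1 hi.2
  · intro he
    have h1 := hA he
    rw [mem_image] at h1
    obtain ⟨i, hi, rfl⟩ := h1
    rw [mem_range] at hi
    rw [mem_W hc hi]
    exact (h i hi).2 he

theorem W_sub (c : ℕ → α) (m : ℕ) : W c m ⊆ (range 8).image c :=
  image_subset_image (filter_subset _ _)

theorem W_or {c : ℕ → α} (hc : ∀ i < 8, ∀ j < 8, c i = c j → i = j) {m e : ℕ} (he : e < 8) :
    W c (m ||| 2 ^ e) = insert (c e) (W c m) := by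
  apply W_ext hc
  · intro a ha
    rw [mem_insert] at ha
    rcases ha with rfl | ha
    · exact mem_image_of_mem c (mem_range.2 he)
    · exact W_sub c m ha
  · intro i hi
    rw [mem_insert, mem_W hc hi, Nat.testBit_or, Nat.testBit_two_pow]
    constructor
    · intro h
      simp only [Bool.or_eq_true, decide_eq_true_eq] at h
      rcases h with h | h
      · exact Or.inr h
      · exact Or.inl (by rw [h])
    · intro h
      simp only [Bool.or_eq_true, decide_eq_true_eq]
      rcases h with h | h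
      · exact Or.inr (hc i hi e he h).symm
      · exact Or.inl h

/-- the mask of eight booleans -/
def M (b0 b1 b2 b3 b4 b5 b6 b7 : Bool) : ℕ :=
  b0.toNat + 2 * b1.toNat + 4 * b2.toNat + 8 * b3.toNat + 16 * b4.toNat + 32 * b5.toNat +
    64 * b6.toNat + 128 * b7.toNat

theorem M_spec : ∀ b0 b1 b2 b3 b4 b5 b6 b7 : Bool, M b0 b1 b2 b3 b4 b5 b6 b7 < 256 ∧
    (M b0 b1 b2 b3 b4 b5 b6 b7).testBit 0 = b0 ∧ (M b0 b1 b2 b3 b4 b5 b6 b7).testBit 1 = b1 ∧
    (M b0 b1 b2 b3 b4 b5 b6 b7).testBit 2 = b2 ∧ (M b0 b1 b2 b3 b4 b5 b6 b7).testBit 3 = b3 ∧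
    (M b0 b1 b2 b3 b4 b5 b6 b7).testBit 4 = b4 ∧ (M b0 b1 b2 b3 b4 b5 b6 b7).testBit 5 = b5 ∧
    (M b0 b1 b2 b3 b4 b5 b6 b7).testBit 6 = b6 ∧ (M b0 b1 b2 b3 b4 b5 b6 b7).testBit 7 = b7 := by
  decide +kernel

theorem exists_mask {c : ℕ → α} (hc : ∀ i < 8, ∀ j < 8, c i = c j → i = j) {A : Finset α}
    (hA : A ⊆ (range 8).image c) : ∃ S < 256, W c S = A := by
  obtain ⟨h, h0, h1, h2, h3, h4, h5, h6, h7⟩ := M_spec (decide (c 0 ∈ A)) (decide (c 1 ∈ A))
    (decide (c 2 ∈ A)) (decide (c 3 ∈ A)) (decide (c 4 ∈ A)) (decide (c 5 ∈ A))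
    (decide (c 6 ∈ A)) (decide (c 7 ∈ A))
  refine ⟨_, h, W_ext hc hA ?_⟩
  intro i hi
  interval_cases i
  · rw [h0, decide_eq_true_iff]
  · rw [h1, decide_eq_true_iff]
  · rw [h2, decide_eq_true_iff]
  · rw [h3, decide_eq_true_iff]
  · rw [h4, decide_eq_true_iff]
  · rw [h5, decide_eq_true_iff]
  · rw [h6, decide_eq_true_iff]
  · rw [h7, decide_eq_true_iff]

theorem pc_sum : ∀ m < 256, ∑ i ∈ range 8, (if m.testBit i = true then (1 : ℤ) else 0) = pc m := by
  decide +kernel

theorem pc_card : ∀ m < 256, ((range 8).filter (fun i => m.testBit i = true)).card = pc m := by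
  decide +kernel

theorem bits_ne : ∀ m < 256, 0 < m → ∃ i < 8, m.testBit i = true := by
  decide +kernel

theorem bits_ne' : ∀ m < 255, ∃ i < 8, m.testBit i = false := by
  decide +kernel

theorem bits_full : ∀ i < 8, (255 : ℕ).testBit i = true := by
  decide +kernel

theorem sum_W {c : ℕ → α} (hc : ∀ i < 8, ∀ j < 8, c i = c j → i = j) (y : α → ℤ) (P N S : ℕ)
    (hPN : P &&& N = 0)
    (hy : ∀ i < 8, y (c i) = if P.testBit i = true then 1 else if N.testBit i = true then -1 else 0)
    (hS : S < 256) : ∑ e ∈ W c S, y e = (pc (S &&& P) : ℤ) - pc (S &&& N) := by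
  unfold W
  rw [sum_image, sum_filter, ← pc_sum _ (lt_of_le_of_lt Nat.and_le_left hS),
    ← pc_sum _ (lt_of_le_of_lt Nat.and_le_left hS), ← sum_sub_distrib]
  · apply sum_congr rfl
    intro i hi
    rw [mem_range] at hi
    rw [hy i hi, Nat.testBit_and, Nat.testBit_and]
    have h1 : (P &&& N).testBit i = false := by rw [hPN]; exact Nat.zero_testBit i
    rw [Nat.testBit_and] at h1
    revert h1
    cases S.testBit i <;> cases P.testBit i <;> cases N.testBit i <;> simp
  · intro i hi j hj h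
    rw [mem_coe, mem_filter, mem_range] at hi hj
    exact hc i hi.1 j hj.1 h

end Bridge8Aux

open Bridge8Aux

theorem no8 {α : Type*} [DecidableEq α] {K : Finset α} {k : Finset α → ℤ} (hh : Sub K k)
    (hK0 : k K = 0) (hirr : ∀ A ⊆ K, A ≠ ∅ → A ≠ K → 1 ≤ k A) (h3 : ∀ A ⊆ K, k A ≤ 3)
    (c : ℕ → α) (hc : ∀ i < 8, ∀ j < 8, c i = c j → i = j) (hcK : K = (range 8).image c)
    (x : α → ℤ) (hx0 : x (c 0) = 1) (hx1 : x (c 1) = 1) (hx2 : x (c 2) = -1)
    (hx3 : x (c 3) = -1) (hx4 : ∀ i < 8, 4 ≤ i → x (c i) = 0)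
    (hle : ∀ A ⊆ K, ∑ e ∈ A, x e ≤ k A) (hneg : ∀ A ⊆ K, -∑ e ∈ A, x e ≤ k A)
    (htie : ∀ A ⊆ K, ((c 4 ∈ A ∧ c 5 ∉ A) ∨ (c 5 ∈ A ∧ c 4 ∉ A)) → ∑ e ∈ A, x e ≠ k A)
    (t : ℕ) (ht5 : t = 5 ∨ t = 7)
    (hmtie : ∀ A ⊆ K, ((c 6 ∈ A ∧ c t ∉ A) ∨ (c t ∈ A ∧ c 6 ∉ A)) → -∑ e ∈ A, x e ≠ k A)
    (hno : ∀ y : α → ℤ, V K k y → (K.filter (fun e => y e = 1)).card < 3) : False := by
  have hWK : ∀ S, W c S ⊆ K := fun S => by rw [hcK]; exact W_sub c S
  have hW0 : W c 0 = ∅ := by
    apply W_ext hc (empty_subset _)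
    intro i _
    simp
  have hWF : W c 255 = K := by
    rw [hcK]
    apply W_ext hc (Subset.refl _)
    intro i hi
    rw [bits_full i hi]
    simp only [true_iff]
    exact mem_image_of_mem c (mem_range.2 hi)
  have hcast : ∀ S, (((k (W c S)).toNat : ℕ) : ℤ) = k (W c S) := fun S =>
    Int.toNat_of_nonneg (hh.nonneg _ (hWK S))
  have hcK' : ∀ i < 8, c i ∈ K := fun i hi => by
    rw [hcK]; exact mem_image_of_mem c (mem_range.2 hi)
  have hsx : ∀ S < 256, ∑ e ∈ W c S, x e = (pc (S &&& 3) : ℤ) - pc (S &&& 12) := by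
    intro S hS
    apply sum_W hc x 3 12 S (by decide) _ hS
    intro i hi
    interval_cases i
    · rw [hx0]; decide
    · rw [hx1]; decide
    · rw [hx2]; decide
    · rw [hx3]; decide
    · rw [hx4 4 (by omega) (by omega)]; decide
    · rw [hx4 5 (by omega) (by omega)]; decide
    · rw [hx4 6 (by omega) (by omega)]; decide
    · rw [hx4 7 (by omega) (by omega)]; decide
  have ht8 : t < 8 := by omega
  refine fin8 (fun S => (k (W c S)).toNat) t ht5 ?_ ?_ ?_ ?_ ?_ ?_ ?_ ?_ ?_ ?_
  · simp only [hW0, hh.empty, Int.toNat_zero]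
  · simp only [hWF, hK0, Int.toNat_zero]
  · intro S hS0 hS1
    have h1 : 1 ≤ k (W c S) := by
      apply hirr _ (hWK S)
      · intro h
        obtain ⟨i, hi, hb⟩ := bits_ne S (by omega) hS0
        rw [← mem_W hc hi, h] at hb
        exact notMem_empty _ hb
      · intro h
        obtain ⟨i, hi, hb⟩ := bits_ne' S hS1
        have h2 := (mem_W hc (m := S) hi).1 (by rw [h]; exact hcK' i hi)
        rw [hb] at h2
        exact absurd h2 (by simp)
    have h2 := hcast S
    omega
  · intro S _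
    have h1 := h3 _ (hWK S)
    have h2 := hcast S
    omega
  · intro S _ e he _
    have h1 := hh.up _ (hWK S) _ (hcK' e he)
    have h2 := hh.down _ (hWK S) _ (hcK' e he)
    rw [← W_or hc he] at h1 h2
    have h4 := hcast S
    have h5 := hcast (S ||| 2 ^ e)
    omega
  · intro B _ a ha b hb hab hBa hBb
    have h1 := hh.sub _ (hWK (B ||| 2 ^ a)) _ (hWK (B ||| 2 ^ b))
    have h2 : W c (B ||| 2 ^ a) ∪ W c (B ||| 2 ^ b) = W c (B ||| 2 ^ a ||| 2 ^ b) := by
      rw [show W c (B ||| 2 ^ a ||| 2 ^ b) = insert (c b) (insert (c a) (W c B)) by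
        rw [W_or hc hb, W_or hc ha], W_or hc ha, W_or hc hb]
      ext e
      simp only [mem_union, mem_insert]
      tauto
    have h3 : W c (B ||| 2 ^ a) ∩ W c (B ||| 2 ^ b) = W c B := by
      rw [W_or hc ha, W_or hc hb]
      ext e
      simp only [mem_inter, mem_insert]
      constructor
      · rintro ⟨h | h, h' | h'⟩
        · exact absurd (hc a ha b hb (h.symm.trans h')) hab
        · exact h'
        · exact h
        · exact h
      · intro h
        exact ⟨Or.inr h, Or.inr h⟩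
    rw [h2, h3] at h1
    have h4 := hcast B
    have h5 := hcast (B ||| 2 ^ a)
    have h6 := hcast (B ||| 2 ^ b)
    have h7 := hcast (B ||| 2 ^ a ||| 2 ^ b)
    omega
  · intro S hS
    have h1 := hle _ (hWK S)
    have h2 := hneg _ (hWK S)
    rw [hsx S hS] at h1 h2
    have h4 := hcast S
    omega
  · intro S hS hb
    have h1 := hle _ (hWK S)
    have h2 := htie _ (hWK S) (by
      rw [mem_W hc (by omega), mem_W hc (by omega)]
      revert hb
      cases S.testBit 4 <;> cases S.testBit 5 <;> simp)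
    rw [hsx S hS] at h1 h2
    have h4 := hcast S
    omega
  · intro S hS hb
    have h1 := hneg _ (hWK S)
    have h2 := hmtie _ (hWK S) (by
      rw [mem_W hc (by omega), mem_W hc ht8]
      revert hb
      cases S.testBit 6 <;> cases S.testBit t <;> simp)
    rw [hsx S hS] at h1 h2
    have h4 := hcast S
    omega
  · intro P hP N hN hPN hcP hcN
    by_contra hcon
    push Not at hcon
    set y : α → ℤ := fun e => if e ∈ W c P then 1 else if e ∈ W c N then -1 else 0 with hyd
    have hyc : ∀ i < 8, y (c i) =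
        if P.testBit i = true then 1 else if N.testBit i = true then -1 else 0 := by
      intro i hi
      simp only [hyd, mem_W hc hi]
    have hsy : ∀ S < 256, ∑ e ∈ W c S, y e = (pc (S &&& P) : ℤ) - pc (S &&& N) := fun S hS =>
      sum_W hc y P N S hPN hyc hS
    have hV : V K k y := by
      refine ⟨?_, ?_, ?_⟩
      · intro A hA
        obtain ⟨S, hS, rfl⟩ := exists_mask hc (A := A) (by rw [← hcK]; exact hA)
        rw [hsy S hS]
        have h1 := (hcon S hS).1
        have h4 := hcast S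
        omega
      · intro A hA
        obtain ⟨S, hS, rfl⟩ := exists_mask hc (A := A) (by rw [← hcK]; exact hA)
        rw [hsy S hS]
        have h1 := (hcon S hS).2
        have h4 := hcast S
        omega
      · intro e _
        simp only [hyd]
        split_ifs
        · exact Or.inl rfl
        · exact Or.inr (Or.inl rfl)
        · exact Or.inr (Or.inr rfl)
    have h1 := hno y hV
    have h2 : K.filter (fun e => y e = 1) = W c P := by
      ext e
      rw [mem_filter]
      simp only [hyd]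
      constructor
      · rintro ⟨_, h⟩
        by_contra h'
        rw [if_neg h'] at h
        split_ifs at h <;> simp at h
      · intro h
        exact ⟨hWK P h, by rw [if_pos h]⟩
    have h3 : (W c P).card = pc P := by
      unfold W
      rw [card_image_of_injOn, pc_card P hP]
      intro i hi j hj h
      rw [mem_coe, mem_filter, mem_range] at hi hj
      exact hc i hi.1 j hj.1 h
    rw [h2, h3, hcP] at h1
    omega

end Pool.Agent.P901b45f
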