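import Mathlib

/-!
A checker for propositional refutations about integer functions on the subsets of an 8-element set,
with its correctness (MP_901b45_co).
-/

set_option autoImplicit false

namespace Pool.Agent.P901b45f

/-- number of set bits below 8 -/
def pc (m : ℕ) : ℕ := m % 2 + m / 2 % 2 + m / 4 % 2 + m / 8 % 2 + m / 16 % 2 + m / 32 % 2 +
  m / 64 % 2 + m / 128 % 2

/-- binary trees of numbers -/
inductive T where
  | l (n : ℕ) : T
  | b (x y : T) : T

/-- the entry with a given index -/
noncomputable def T.get (t : T) : ℕ → ℕ :=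
  T.rec (motive := fun _ => ℕ → ℕ) (fun n _ => n)
    (fun _ _ fx fy i => cond (Nat.beq (Nat.mod i 2) 0) (fx (Nat.div i 2)) (fy (Nat.div i 2))) t

/-- the literal `l`: for even `l` it says `2 + l / 2 % 2 ≤ H (l / 4)`, for odd `l` the negation -/
def tr (H : ℕ → ℕ) (l : ℕ) : Prop :=
  (l % 2 = 0 ∧ 2 + l / 2 % 2 ≤ H (l / 4)) ∨ (l % 2 = 1 ∧ H (l / 4) < 2 + l / 2 % 2)

/-- a clause (a set of literals, as a bitmask) is satisfied -/
def Sat (H : ℕ → ℕ) (C : ℕ) : Prop := ∃ l, C.testBit l = true ∧ tr H l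

/-- the negated literal -/
def ng (l : ℕ) : ℕ := bif Nat.beq (Nat.mod l 2) 0 then l + 1 else l - 1

/-- one unit propagation, `x` is the hint, `r` the rest -/
noncomputable def prop (db : T) (m F x : ℕ) (r : ℕ → Bool) : Bool :=
  cond (Nat.blt (Nat.div x 1024) m)
    (cond (Nat.beq (Nat.mod x 1024) 1023)
      (Nat.beq (Nat.lor (db.get (Nat.div x 1024)) F) F)
      (cond (Nat.beq (Nat.lor (db.get (Nat.div x 1024)) F) (Nat.lor F (Nat.pow 2 (Nat.mod x 1024))))
        (r (Nat.lor F (Nat.pow 2 (ng (Nat.mod x 1024))))) false))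
    false

/-- unit propagation along hints -/
noncomputable def run (db : T) (m n : ℕ) : ℕ → ℕ → Bool :=
  Nat.rec (motive := fun _ => ℕ → ℕ → Bool) (fun _ _ => false)
    (fun _ ih c F => prop db m F (Nat.mod c 8388608) (ih (Nat.div c 8388608))) n

theorem run_succ (db : T) (m n c F : ℕ) : run db m (n + 1) c F =
    bif Nat.blt (Nat.div (Nat.mod c 8388608) 1024) m then
      bif Nat.beq (Nat.mod (Nat.mod c 8388608) 1024) 1023 then
        Nat.beq (Nat.lor (db.get (Nat.div (Nat.mod c 8388608) 1024)) F) F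
      else
        bif Nat.beq (Nat.lor (db.get (Nat.div (Nat.mod c 8388608) 1024)) F)
            (Nat.lor F (Nat.pow 2 (Nat.mod (Nat.mod c 8388608) 1024))) then
          run db m n (Nat.div c 8388608)
            (Nat.lor F (Nat.pow 2 (ng (Nat.mod (Nat.mod c 8388608) 1024))))
        else false
    else false := rfl

theorem ng_tr {H : ℕ → ℕ} {l : ℕ} (h : tr H l) : ¬ tr H (ng l) := by
  unfold ng
  rcases Nat.mod_two_eq_zero_or_one l with h2 | h2
  · have e : Nat.beq (Nat.mod l 2) 0 = true := by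
      show Nat.beq (l % 2) 0 = true
      rw [h2]; rfl
    rw [e, cond_true]
    rcases h with ⟨_, h⟩ | ⟨h, _⟩
    · rintro (⟨h3, _⟩ | ⟨_, h3⟩)
      · omega
      · have e1 : (l + 1) / 4 = l / 4 := by omega
        have e2 : (l + 1) / 2 = l / 2 := by omega
        rw [e1, e2] at h3
        omega
    · omega
  · have e : Nat.beq (Nat.mod l 2) 0 = false := by
      show Nat.beq (l % 2) 0 = false
      rw [h2]; rfl
    rw [e, cond_false]
    rcases h with ⟨h, _⟩ | ⟨_, h⟩
    · omega
    · rintro (⟨_, h3⟩ | ⟨h3, _⟩)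
      · have e1 : (l - 1) / 4 = l / 4 := by omega
        have e2 : (l - 1) / 2 = l / 2 := by omega
        rw [e1, e2] at h3
        omega
      · omega

theorem lor_testBit (a b i : ℕ) : (Nat.lor a b).testBit i = (a.testBit i || b.testBit i) :=
  Nat.testBit_or a b i

theorem pow_testBit (n i : ℕ) : (Nat.pow 2 n).testBit i = decide (n = i) :=
  Nat.testBit_two_pow

theorem run_sound {H : ℕ → ℕ} {db : T} {m : ℕ} (hdb : ∀ i < m, Sat H (db.get i)) :
    ∀ (n c F : ℕ), (∀ l, F.testBit l = true → ¬ tr H l) → run db m n c F = true → False := by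
  intro n
  induction n with
  | zero => intro c F _ h; exact absurd h (by show ¬ false = true; simp)
  | succ n ih =>
    intro c F hF h
    rw [run_succ] at h
    cases h1 : Nat.blt (Nat.div (Nat.mod c 8388608) 1024) m with
    | false => rw [h1] at h; simp at h
    | true =>
      rw [h1, cond_true] at h
      have hlt : Nat.div (Nat.mod c 8388608) 1024 < m := by
        have := Nat.le_of_ble_eq_true h1
        omega
      obtain ⟨l, hl, hl'⟩ := hdb _ hlt
      cases h2 : Nat.beq (Nat.mod (Nat.mod c 8388608) 1024) 1023 with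
      | true =>
        rw [h2, cond_true] at h
        have h3 := Nat.eq_of_beq_eq_true h
        refine hF l ?_ hl'
        rw [← h3, lor_testBit, hl]
        rfl
      | false =>
        rw [h2, cond_false] at h
        cases h3 : Nat.beq (Nat.lor (db.get (Nat.div (Nat.mod c 8388608) 1024)) F)
            (Nat.lor F (Nat.pow 2 (Nat.mod (Nat.mod c 8388608) 1024))) with
        | false => rw [h3] at h; simp at h
        | true =>
          rw [h3, cond_true] at h
          have h4 := Nat.eq_of_beq_eq_true h3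
          have h5 : (Nat.lor F (Nat.pow 2 (Nat.mod (Nat.mod c 8388608) 1024))).testBit l = true := by
            rw [← h4, lor_testBit, hl]
            rfl
          rw [lor_testBit, pow_testBit, Bool.or_eq_true, decide_eq_true_eq] at h5
          rcases h5 with h5 | h5
          · exact hF l h5 hl'
          · refine ih _ _ ?_ h
            intro k hk
            rw [lor_testBit, pow_testBit, Bool.or_eq_true, decide_eq_true_eq] at hk
            rcases hk with hk | hk
            · exact hF k hk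
            · rw [← hk, h5]
              exact ng_tr hl'

theorem step_sound {H : ℕ → ℕ} {db : T} {m n c : ℕ} (hdb : ∀ i < m, Sat H (db.get i))
    (h : run db m n c (db.get m) = true) : Sat H (db.get m) := by
  by_contra hno
  refine run_sound hdb n c _ ?_ h
  intro l hl hl'
  exact hno ⟨l, hl, hl'⟩

theorem Sat.left {H : ℕ → ℕ} {a b : ℕ} (h : Sat H a) : Sat H (Nat.lor a b) := by
  obtain ⟨l, h1, h2⟩ := h
  exact ⟨l, by rw [lor_testBit, h1]; rfl, h2⟩

theorem Sat.right {H : ℕ → ℕ} {a b : ℕ} (h : Sat H b) : Sat H (Nat.lor a b) := by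
  obtain ⟨l, h1, h2⟩ := h
  exact ⟨l, by rw [lor_testBit, h1, Bool.or_true], h2⟩

theorem Sat.of_sub {H : ℕ → ℕ} {a b : ℕ} (h : Sat H a) (hab : Nat.beq (Nat.lor a b) b = true) :
    Sat H b := by
  rw [← Nat.eq_of_beq_eq_true hab]
  exact h.left

/-- lower and upper bounds -/
def lo (S : ℕ) : ℕ := bif Nat.beq S 0 || Nat.beq S 255 then 0 else 1

def hi (S : ℕ) : ℕ := min 3 (min (pc S) (8 - pc S))

/-- literal `H S < u` -/
def nge (S u : ℕ) : ℕ := bif Nat.ble u (lo S) then 0 else Nat.pow 2 (4 * S + 2 * (u - 2) + 1)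

/-- literal `u ≤ H S` -/
def ge (S u : ℕ) : ℕ := bif Nat.blt (hi S) u then 0 else Nat.pow 2 (4 * S + 2 * (u - 2))

def okn (S u : ℕ) : Bool := Nat.ble u (lo S) || (Nat.ble 2 u && Nat.ble u 3)

def okg (S u : ℕ) : Bool := Nat.blt (hi S) u || (Nat.ble 2 u && Nat.ble u 3)

theorem nge_sound {H : ℕ → ℕ} {S u : ℕ} (hlo : lo S ≤ H S) (hok : okn S u = true)
    (h : H S < u) : Sat H (nge S u) := by
  unfold nge
  cases h1 : Nat.ble u (lo S) with
  | true => exact absurd (Nat.le_of_ble_eq_true h1) (by omega)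
  | false =>
    rw [cond_false]
    rw [okn, h1, Bool.false_or, Bool.and_eq_true] at hok
    have h2 := Nat.le_of_ble_eq_true hok.1
    have h3 := Nat.le_of_ble_eq_true hok.2
    refine ⟨4 * S + 2 * (u - 2) + 1, by rw [pow_testBit]; simp, Or.inr ⟨by omega, ?_⟩⟩
    have e1 : (4 * S + 2 * (u - 2) + 1) / 4 = S := by omega
    have e2 : (4 * S + 2 * (u - 2) + 1) / 2 % 2 = u - 2 := by omega
    rw [e1, e2]
    omega

theorem ge_sound {H : ℕ → ℕ} {S u : ℕ} (hhi : H S ≤ hi S) (hok : okg S u = true)
    (h : u ≤ H S) : Sat H (ge S u) := by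
  unfold ge
  cases h1 : Nat.blt (hi S) u with
  | true =>
    have := Nat.le_of_ble_eq_true h1
    omega
  | false =>
    rw [cond_false]
    rw [okg, h1, Bool.false_or, Bool.and_eq_true] at hok
    have h2 := Nat.le_of_ble_eq_true hok.1
    have h3 := Nat.le_of_ble_eq_true hok.2
    refine ⟨4 * S + 2 * (u - 2), by rw [pow_testBit]; simp, Or.inl ⟨by omega, ?_⟩⟩
    have e1 : (4 * S + 2 * (u - 2)) / 4 = S := by omega
    have e2 : (4 * S + 2 * (u - 2)) / 2 % 2 = u - 2 := by omega
    rw [e1, e2]
    omega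

/-- disjunction over all masks `2 ^ d * i ≤ S < 2 ^ d * (i + 1)` -/
def orR (g : ℕ → ℕ) : ℕ → ℕ → ℕ
  | 0, i => g i
  | d + 1, i => Nat.lor (orR g d (2 * i)) (orR g d (2 * i + 1))

theorem orR_sound {H : ℕ → ℕ} {g : ℕ → ℕ} : ∀ (d i S : ℕ), 2 ^ d * i ≤ S → S < 2 ^ d * (i + 1) →
    Sat H (g S) → Sat H (orR g d i) := by
  intro d
  induction d with
  | zero =>
    intro i S h1 h2 h
    have : S = i := by omega
    subst this
    exact h
  | succ d ih =>
    intro i S h1 h2 h
    rw [orR]
    have e : 2 ^ (d + 1) * i = 2 ^ d * (2 * i) := by ring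
    have e' : 2 ^ (d + 1) * (i + 1) = 2 ^ d * (2 * i + 1 + 1) := by ring
    rw [e] at h1
    rw [e'] at h2
    by_cases h3 : S < 2 ^ d * (2 * i + 1)
    · exact (ih _ S h1 h3 h).left
    · exact (ih _ S (by omega) h2 h).right

/-- conjunction over a range -/
def allR (p : ℕ → Bool) : ℕ → ℕ → Bool
  | 0, i => p i
  | d + 1, i => bif allR p d (2 * i) then allR p d (2 * i + 1) else false

theorem allR_sound {p : ℕ → Bool} : ∀ (d i : ℕ), allR p d i = true →
    ∀ S, 2 ^ d * i ≤ S → S < 2 ^ d * (i + 1) → p S = true := by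
  intro d
  induction d with
  | zero =>
    intro i h S h1 h2
    have : S = i := by omega
    subst this
    exact h
  | succ d ih =>
    intro i h S h1 h2
    rw [allR] at h
    have e : 2 ^ (d + 1) * i = 2 ^ d * (2 * i) := by ring
    have e' : 2 ^ (d + 1) * (i + 1) = 2 ^ d * (2 * i + 1 + 1) := by ring
    rw [e] at h1
    rw [e'] at h2
    cases h4 : allR p d (2 * i) with
    | false => rw [h4] at h; simp at h
    | true =>
      rw [h4, cond_true] at h
      by_cases h3 : S < 2 ^ d * (2 * i + 1)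
      · exact ih _ h4 S h1 h3
      · exact ih _ h S (by omega) h2

end Pool.Agent.P901b45f
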