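import Pool.Agent.Lib.P901b45d.Seven
import Pool.Agent.Lib.P901b45f.Almost

/-!
Removal of a dominated pair of sets, for Frank's question on complementary vertices of integer
2-polymatroids (MP_901b45_co).
-/

set_option autoImplicit false

namespace Pool.Agent.P901b45f

open Finset Pool.Agent.P901b45e Pool.Agent.P901b45d

variable {α : Type*} [DecidableEq α] {G : Finset α} {h : Finset α → ℤ}

/-- the set `R` dominates the set `T` -/
def DomS (G : Finset α) (h : Finset α → ℤ) (T R : Finset α) : Prop :=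
  T ⊆ G ∧ R ⊆ G ∧ Disjoint T R ∧ T.Nonempty ∧ T.card = R.card ∧
    ∀ A ⊆ G \ (T ∪ R), (T.card : ℤ) ≤ h (T ∪ A) ∧ h (T ∪ A) ≤ h (R ∪ A)

theorem up_union (hh : Sub G h) {A : Finset α} (hA : A ⊆ G) :
    ∀ {B : Finset α}, B ⊆ G → h (A ∪ B) ≤ h A + B.card := by
  intro B
  induction B using Finset.induction_on with
  | empty => intro _; simp
  | insert b B hb ih =>
    intro hB
    have h1 := ih ((subset_insert _ _).trans hB)
    have h2 := hh.up (A ∪ B) (union_subset hA ((subset_insert _ _).trans hB)) b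
      (hB (mem_insert_self _ _))
    rw [union_insert, card_insert_of_notMem hb]
    push_cast
    linarith

theorem down_union (hh : Sub G h) {A : Finset α} (hA : A ⊆ G) :
    ∀ {B : Finset α}, B ⊆ G → h A ≤ h (A ∪ B) + B.card := by
  intro B
  induction B using Finset.induction_on with
  | empty => intro _; simp
  | insert b B hb ih =>
    intro hB
    have h1 := ih ((subset_insert _ _).trans hB)
    have h2 := hh.down (A ∪ B) (union_subset hA ((subset_insert _ _).trans hB)) b
      (hB (mem_insert_self _ _))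
    rw [union_insert, card_insert_of_notMem hb]
    push_cast
    linarith

theorem DomS.card_left (hh : Sub G h) {T R : Finset α} (hd : DomS G h T R) : h T = T.card := by
  obtain ⟨hT, hR, hTR, hne, hc, hb⟩ := hd
  have a1 := up_union hh (empty_subset G) hT
  rw [empty_union, hh.empty] at a1
  have a2 := (hb ∅ (empty_subset _)).1
  rw [union_empty] at a2
  linarith

theorem DomS.card_right (hh : Sub G h) (hG : h G = 0) {T R : Finset α} (hd : DomS G h T R) :
    h (T ∪ (G \ (T ∪ R))) = T.card := by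
  obtain ⟨hT, hR, hTR, hne, hc, hb⟩ := hd
  have a1 := (hb _ (Subset.refl _)).1
  have a2 := down_union hh (union_subset hT (sdiff_subset : G \ (T ∪ R) ⊆ G)) hR
  have e : T ∪ (G \ (T ∪ R)) ∪ R = G := by
    ext y
    simp only [mem_union, mem_sdiff]
    constructor
    · rintro ((h1 | h1) | h1)
      · exact hT h1
      · exact h1.1
      · exact hR h1
    · intro h1
      by_cases h2 : y ∈ T
      · exact Or.inl (Or.inl h2)
      · by_cases h3 : y ∈ R
        · exact Or.inr h3
        · exact Or.inl (Or.inr ⟨h1, fun h4 => h4.elim h2 h3⟩)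
  rw [e, hG, ← hc] at a2
  linarith

/-- removal of a dominated pair of sets keeps the hypotheses -/
theorem reduce_sub (hh : Sub G h) {T R : Finset α} (hd : DomS G h T R) :
    Sub (G \ (T ∪ R)) (fun A => h (T ∪ A) - T.card) := by
  have hTc := hd.card_left hh
  obtain ⟨hT, hR, hTR, hne, hc, hb⟩ := hd
  have hu : ∀ {A}, A ⊆ G \ (T ∪ R) → T ∪ A ⊆ G := fun {A} hA =>
    union_subset hT (hA.trans sdiff_subset)
  refine ⟨?_, ?_, ?_, ?_, ?_⟩
  · show h (T ∪ ∅) - T.card = 0
    rw [union_empty, hTc]; ring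
  · intro A hA
    have := (hb A hA).1
    show 0 ≤ h (T ∪ A) - T.card
    linarith
  · intro A hA B hB
    have h1 := hh.sub _ (hu hA) _ (hu hB)
    have e1 : (T ∪ A) ∪ (T ∪ B) = T ∪ (A ∪ B) := by
      ext y; simp only [mem_union]; tauto
    have e2 : (T ∪ A) ∩ (T ∪ B) = T ∪ (A ∩ B) := by
      ext y; simp only [mem_union, mem_inter]; tauto
    rw [e1, e2] at h1
    show h (T ∪ (A ∪ B)) - T.card + (h (T ∪ (A ∩ B)) - T.card) ≤ h (T ∪ A) - T.card +
      (h (T ∪ B) - T.card)
    linarith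
  · intro A hA e he
    have h1 := hh.up _ (hu hA) e (mem_sdiff.1 he).1
    show h (T ∪ insert e A) - T.card ≤ h (T ∪ A) - T.card + 1
    rw [union_insert]
    linarith
  · intro A hA e he
    have h1 := hh.down _ (hu hA) e (mem_sdiff.1 he).1
    show h (T ∪ A) - T.card ≤ h (T ∪ insert e A) - T.card + 1
    rw [union_insert]
    linarith

/-- a solution for the reduced function gives one for `h` -/
theorem reduce_sol (hh : Sub G h) (hG : h G = 0) {T R : Finset α} (hd : DomS G h T R) {z : α → ℤ}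
    (hz : Sol (G \ (T ∪ R)) (fun A => h (T ∪ A) - T.card) z) :
    Sol G h (fun e => if e ∈ T then 1 else if e ∈ R then -1 else z e) := by
  have hTc := hd.card_left hh
  have hRc := hd.card_right hh hG
  obtain ⟨hT, hR, hTR, hne, hc, hb⟩ := hd
  let x : α → ℤ := fun e => if e ∈ T then 1 else if e ∈ R then -1 else z e
  have hnot : ∀ {e}, e ∈ T → e ∉ R := fun {e} h1 h2 => (disjoint_left.1 hTR) h1 h2
  have hx : ∀ e, x e = (if e ∈ T then 1 else 0) - (if e ∈ R then 1 else 0) +
      (if e ∉ T ∪ R then z e else 0) := by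
    intro e
    by_cases h1 : e ∈ T
    · have h2 := hnot h1
      simp [x, h1, h2]
    · by_cases h2 : e ∈ R
      · simp [x, h1, h2]
      · simp [x, h1, h2]
  have hsum : ∀ S : Finset α, ∑ e ∈ S, x e = ((S ∩ T).card : ℤ) - (S ∩ R).card +
      ∑ e ∈ S \ (T ∪ R), z e := by
    intro S
    rw [sum_congr rfl fun e _ => hx e, sum_add_distrib, sum_sub_distrib]
    congr 1
    · congr 1
      · rw [Finset.sum_boole, filter_mem_eq_inter]
      · rw [Finset.sum_boole, filter_mem_eq_inter]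
    · rw [← Finset.sum_filter, ← sdiff_eq_filter]
  have hbd : ∀ S ⊆ G, ∀ U V : Finset α, U ⊆ G → V ⊆ G → U ∪ V = T ∪ R → ∀ s : ℤ,
      s ≤ h (U ∪ (S \ (T ∪ R))) - U.card → s + ((S ∩ U).card : ℤ) - (S ∩ V).card ≤ h S := by
    intro S hS U V hU hV hUV s hs
    have hA : S \ (T ∪ R) ⊆ G := sdiff_subset.trans hS
    have e1 : U ∪ (S \ (T ∪ R)) = ((S ∩ U) ∪ (S \ (T ∪ R))) ∪ (U \ S) := by
      ext y
      simp only [mem_union, mem_inter, mem_sdiff]
      tauto
    have a1 := up_union hh (union_subset (inter_subset_left.trans hS) hA :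
      (S ∩ U) ∪ (S \ (T ∪ R)) ⊆ G) (sdiff_subset.trans hU : U \ S ⊆ G)
    rw [← e1] at a1
    have a2 : ((U \ S).card : ℤ) + (S ∩ U).card = U.card := by
      have := card_sdiff_add_card_inter U S
      rw [inter_comm U S] at this
      exact_mod_cast this
    have e2 : ((S ∩ U) ∪ (S \ (T ∪ R))) ∪ (S ∩ V) = S := by
      rw [← hUV]
      ext y
      simp only [mem_union, mem_inter, mem_sdiff]
      tauto
    have a3 := down_union hh (union_subset (inter_subset_left.trans hS) hA :
      (S ∩ U) ∪ (S \ (T ∪ R)) ⊆ G) (inter_subset_left.trans hS : S ∩ V ⊆ G)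
    rw [e2] at a3
    linarith
  have hsd : ∀ {S}, S ⊆ G → S \ (T ∪ R) ⊆ G \ (T ∪ R) := fun {S} hS =>
    sdiff_subset_sdiff hS (Subset.refl _)
  have hxT : ∀ {e}, e ∈ T → x e = 1 := fun {e} h1 => by simp [x, h1]
  have hxR : ∀ {e}, e ∈ R → x e = -1 := fun {e} h1 => by
    have h2 : e ∉ T := fun h3 => hnot h3 h1
    simp [x, h1, h2]
  have htG : ∑ e ∈ G, x e = 0 := by
    rw [hsum, inter_eq_right.2 hT, inter_eq_right.2 hR]
    have h1 : ∑ e ∈ G \ (T ∪ R), z e = h (T ∪ (G \ (T ∪ R))) - T.card := hz.tight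
    rw [h1, hRc, hc]
    ring
  -- singletons of `T` and complements of singletons of `R` are tight
  have t1 : ∀ {e}, e ∈ T → ∑ i ∈ ({e} : Finset α), x i = h {e} := by
    intro e he
    rw [sum_singleton, hxT he]
    have a1 := hh.up ∅ (empty_subset _) e (hT he)
    rw [hh.empty] at a1
    have a2 : h {e} ≤ 1 := by simpa using a1
    have a3 := up_union hh (singleton_subset_iff.2 (hT he)) ((erase_subset e T).trans hT)
    have e1 : {e} ∪ T.erase e = T := by
      rw [← insert_eq, insert_erase he]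
    rw [e1, hTc] at a3
    have a4 := card_erase_add_one he
    have a5 : ((T.erase e).card : ℤ) + 1 = T.card := by exact_mod_cast a4
    linarith
  have t2 : ∀ {e}, e ∈ R → ∑ i ∈ G.erase e, x i = h (G.erase e) := by
    intro e he
    have a1 := Finset.add_sum_erase G x (hR he)
    rw [hxR he, htG] at a1
    have a2 := hh.down (G.erase e) (erase_subset _ _) e (hR he)
    rw [insert_erase (hR he), hG] at a2
    have hU : T ∪ (G \ (T ∪ R)) ⊆ G := union_subset hT sdiff_subset
    have a3 := down_union hh hU ((erase_subset e R).trans hR)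
    have e1 : T ∪ (G \ (T ∪ R)) ∪ R.erase e = G.erase e := by
      ext y
      simp only [mem_union, mem_sdiff, mem_erase]
      constructor
      · rintro ((h1 | h1) | h1)
        · exact ⟨fun h2 => hnot h1 (h2 ▸ he), hT h1⟩
        · exact ⟨fun h2 => h1.2 (Or.inr (h2 ▸ he)), h1.1⟩
        · exact ⟨h1.1, hR h1.2⟩
      · rintro ⟨h1, h2⟩
        by_cases h3 : y ∈ T
        · exact Or.inl (Or.inl h3)
        · by_cases h4 : y ∈ R
          · exact Or.inr ⟨h1, h4⟩
          · exact Or.inl (Or.inr ⟨h2, fun h5 => h5.elim h3 h4⟩)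
    rw [e1, hRc, hc] at a3
    have a4 := card_erase_add_one he
    have a5 : ((R.erase e).card : ℤ) + 1 = R.card := by exact_mod_cast a4
    linarith
  refine ⟨?_, ?_, ?_, ?_⟩
  · intro S hS
    show ∑ e ∈ S, x e ≤ h S
    have a1 : ∑ e ∈ S \ (T ∪ R), z e ≤ h (T ∪ (S \ (T ∪ R))) - T.card := hz.le _ (hsd hS)
    have a2 := hbd S hS T R hT hR rfl _ a1
    rw [hsum]
    linarith
  · intro S hS
    show -∑ e ∈ S, x e ≤ h S
    have a1 : -∑ e ∈ S \ (T ∪ R), z e ≤ h (T ∪ (S \ (T ∪ R))) - T.card := hz.neg_le _ (hsd hS)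
    have a3 := (hb _ (hsd hS)).2
    have a2 := hbd S hS R T hR hT (union_comm _ _) (-∑ e ∈ S \ (T ∪ R), z e) (by
      rw [← hc]
      linarith)
    rw [hsum]
    linarith
  · show ∑ e ∈ G, x e = h G
    rw [htG, hG]
  · intro i hi j hj hij
    show ∃ X ⊆ G, ∑ e ∈ X, x e = h X ∧ ((i ∈ X ∧ j ∉ X) ∨ (j ∈ X ∧ i ∉ X))
    by_cases h3 : i ∈ T
    · exact ⟨{i}, singleton_subset_iff.2 hi, t1 h3, Or.inl ⟨mem_singleton_self i,
        fun h4 => hij (mem_singleton.1 h4).symm⟩⟩
    by_cases h4 : j ∈ T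
    · exact ⟨{j}, singleton_subset_iff.2 hj, t1 h4, Or.inr ⟨mem_singleton_self j,
        fun h5 => hij (mem_singleton.1 h5)⟩⟩
    by_cases h5 : i ∈ R
    · exact ⟨G.erase i, erase_subset _ _, t2 h5, Or.inr ⟨mem_erase.2 ⟨hij.symm, hj⟩,
        fun h6 => (mem_erase.1 h6).1 rfl⟩⟩
    by_cases h6 : j ∈ R
    · exact ⟨G.erase j, erase_subset _ _, t2 h6, Or.inl ⟨mem_erase.2 ⟨hij, hi⟩,
        fun h7 => (mem_erase.1 h7).1 rfl⟩⟩
    obtain ⟨X, hX, hXt, hXs⟩ := hz.sep i
      (mem_sdiff.2 ⟨hi, fun h7 => (mem_union.1 h7).elim h3 h5⟩) j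
      (mem_sdiff.2 ⟨hj, fun h7 => (mem_union.1 h7).elim h4 h6⟩) hij
    have hXt' : ∑ e ∈ X, z e = h (T ∪ X) - T.card := hXt
    have hXd : (T ∪ X) \ (T ∪ R) = X := by
      ext y
      simp only [mem_union, mem_sdiff]
      constructor
      · rintro ⟨h7 | h7, h8⟩
        · exact absurd (Or.inl h7) h8
        · exact h7
      · intro h7
        exact ⟨Or.inr h7, fun h8 => (mem_sdiff.1 (hX h7)).2 (mem_union.2 h8)⟩
    have hXT : (T ∪ X) ∩ T = T := inter_eq_right.2 subset_union_left
    have hXR : (T ∪ X) ∩ R = ∅ := by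
      rw [← disjoint_iff_inter_eq_empty, disjoint_union_left]
      refine ⟨hTR, ?_⟩
      rw [disjoint_left]
      intro y h7 h8
      exact (mem_sdiff.1 (hX h7)).2 (mem_union_right _ h8)
    refine ⟨T ∪ X, union_subset hT (hX.trans sdiff_subset), ?_, ?_⟩
    · rw [hsum, hXd, hXT, hXR, card_empty, hXt']
      push_cast
      ring
    · simp only [mem_union, h3, h4, false_or]
      exact hXs

theorem Almost.congr {I : Finset α} {g g' : Finset α → ℤ} (hg : ∀ S ⊆ I, g S = g' S)
    (h : Almost I g) : Almost I g' := by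
  obtain ⟨t, ht, h1, h2⟩ := h
  refine ⟨t, ht, ?_, ?_⟩
  · rcases h1 with h1 | h1
    · exact Or.inl fun S hS => by rw [← hg S hS]; exact h1 S hS
    · right
      rintro ⟨u, a1, a2, a3, a4⟩
      exact h1 ⟨u, a1, fun S hS => by rw [hg S hS]; exact a2 S hS,
        fun S hS => by rw [hg S hS]; exact a3 S hS, a4⟩
  rcases h2 with h2 | h2
  · exact Or.inl h2
  · exact Or.inr fun S hS => by rw [← hg S hS]; exact h2 S hS

end Pool.Agent.P901b45f
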