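import Pool.Agent.Lib.P901b45f.Fine
import Pool.Agent.Lib.P901b45h.High

/-!
The class of functions obtained by removal of dominated pairs of sets and by tight sets
(MP_901b45_co).
-/

set_option autoImplicit false

namespace Pool.Agent.P901b45f

open Finset Pool.Agent.P901b45e Pool.Agent.P901b45d Pool.Agent.P901b45h

/-- `T`, `R` is a dominated pair of sets of the function `q` on the subsets of `I`: two disjoint
nonempty sets of the same size with `|S| + 2 |T| ≤ q (T ∪ S) ≤ q (R ∪ S)` for all `S` disjoint from
both -/
def Dominated {α : Type} [DecidableEq α] (I : Finset α) (q : Finset α → ℤ) (T R : Finset α) :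
    Prop :=
  T ⊆ I ∧ R ⊆ I ∧ Disjoint T R ∧ T.Nonempty ∧ T.card = R.card ∧
    ∀ S ⊆ I \ (T ∪ R), (S.card : ℤ) + 2 * T.card ≤ q (T ∪ S) ∧ q (T ∪ S) ≤ q (R ∪ S)

/-- the smallest class of functions `q` on finite sets `I` that contains those with `|I| ≤ 7`, the
almost uniform ones and those with a good slice or a high point, and that contains `q` if
`q S = |S|` for a proper nonempty set `S` such that the restriction of `q` to `S` and the contraction
`q (S ∪ X) - q S` are in it, or if `q` has a dominated pair `T`, `R` such that `q (T ∪ X) - q T` on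
`I \ (T ∪ R)` is in it -/
inductive Good {α : Type} [DecidableEq α] : Finset α → (Finset α → ℤ) → Prop
  | small (I : Finset α) (q : Finset α → ℤ) : I.card ≤ 7 → Good I q
  | almost (I : Finset α) (q : Finset α → ℤ) : Almost I q → Good I q
  | slice (I : Finset α) (q : Finset α → ℤ) : HasSlice I q → Good I q
  | high (I : Finset α) (q : Finset α → ℤ) : HighPoint I q → Good I q
  | split (I : Finset α) (q : Finset α → ℤ) (S : Finset α) : S ⊆ I → S ≠ ∅ → S ≠ I →
      q S = S.card → Good S q → Good (I \ S) (fun X => q (S ∪ X) - q S) → Good I q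
  | pair (I : Finset α) (q : Finset α → ℤ) (T R : Finset α) : Dominated I q T R →
      Good (I \ (T ∪ R)) (fun X => q (T ∪ X) - q T) → Good I q

theorem sol_of_good {α : Type} [DecidableEq α] {G : Finset α} {q : Finset α → ℤ}
    (hg : Good G q) : ∀ h : Finset α → ℤ, (∀ S ⊆ G, q S = h S + S.card) → Sub G h → h G = 0 →
    ∃ x, Sol G h x := by
  induction hg with
  | small G q hc =>
    intro h _ hh hG
    refine dominance _ G h rfl hh hG ?_
    intro I hI hI8
    have := card_le_card hI
    omega
  | almost G q ha =>
    intro h hq hh hG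
    exact sol_of_almost hh hG (ha.congr hq)
  | slice G q ha =>
    intro h hq hh hG
    exact sol_of_slice hh hG (ha.congr hq)
  | high G q ha =>
    intro h hq hh hG
    exact sol_of_high hh hG (ha.congr hq)
  | split G q S hS hS1 hS2 hqS _ _ ih1 ih2 =>
    intro h hq hh hG
    have hS0 : h S = 0 := by
      have h1 := hq S hS
      linarith
    obtain ⟨x, hx⟩ := ih1 h (fun X hX => hq X (hX.trans hS)) (hh.restrict hS) hS0
    obtain ⟨y, hy⟩ := ih2 (fun T => h (S ∪ T))
      (by
        intro X hX
        have h1 := hq (S ∪ X) (union_subset hS (hX.trans sdiff_subset))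
        have h2 := hq S hS
        have h3 : ((S ∪ X).card : ℤ) = S.card + X.card := by
          rw [card_union_of_disjoint]
          · push_cast; rfl
          · rw [disjoint_left]
            intro y h3 h4
            exact (mem_sdiff.1 (hX h4)).2 h3
        show q (S ∪ X) - q S = h (S ∪ X) + X.card
        linarith)
      (hh.contract hS hS0) (by
        show h (S ∪ (G \ S)) = 0
        rw [union_sdiff_of_subset hS, hG])
    exact ⟨_, glue hh hS hS0 hx hy⟩
  | pair G q T R hd _ ih =>
    intro h hq hh hG
    obtain ⟨hT, hR, hTR, hne, hc, hb⟩ := hd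
    have hcd : ∀ {X Y : Finset α}, Disjoint X Y → ((X ∪ Y).card : ℤ) = X.card + Y.card := by
      intro X Y hXY
      rw [card_union_of_disjoint hXY]
      push_cast
      rfl
    have hdT : ∀ {S : Finset α}, S ⊆ G \ (T ∪ R) → Disjoint T S := fun {S} hS => by
      rw [disjoint_left]
      intro y h3 h4
      exact (mem_sdiff.1 (hS h4)).2 (mem_union_left _ h3)
    have hdR : ∀ {S : Finset α}, S ⊆ G \ (T ∪ R) → Disjoint R S := fun {S} hS => by
      rw [disjoint_left]
      intro y h3 h4
      exact (mem_sdiff.1 (hS h4)).2 (mem_union_right _ h3)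
    have hd : DomS G h T R := by
      refine ⟨hT, hR, hTR, hne, hc, fun S hS => ?_⟩
      have hSG : S ⊆ G := hS.trans sdiff_subset
      obtain ⟨h1, h2⟩ := hb S hS
      have h3 := hq _ (union_subset hT hSG)
      have h4 := hq _ (union_subset hR hSG)
      rw [hcd (hdT hS)] at h3
      rw [hcd (hdR hS), ← hc] at h4
      constructor <;> linarith
    have hTc := hd.card_left hh
    obtain ⟨z, hz⟩ := ih (fun A => h (T ∪ A) - T.card)
      (by
        intro X hX
        have h1 := hq (T ∪ X) (union_subset hT (hX.trans sdiff_subset))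
        have h2 := hq T hT
        rw [hcd (hdT hX)] at h1
        show q (T ∪ X) - q T = h (T ∪ X) - T.card + X.card
        linarith)
      (reduce_sub hh hd) (by
        show h (T ∪ (G \ (T ∪ R))) - T.card = 0
        rw [hd.card_right hh hG]; ring)
    exact ⟨_, reduce_sol hh hG hd hz⟩

end Pool.Agent.P901b45f
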