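import Pool.Agent.Lib.P901b45d.Red
import Pool.Agent.Lib.P901b45f.Good
import Pool.Agent.Lib.P901b45e.Bridge

/-!
Frank's question for the 2-polymatroids of the class `Good` (MP_901b45_co).
-/

set_option autoImplicit false

namespace Pool.Agent.P901b45f

open Finset Pool.Agent.P901b45d

/-- the truncation of `f` to rank `n` -/
def trunc {n : ℕ} (f : Finset (Fin n) → ℤ) (S : Finset (Fin n)) : ℤ := min (f S) n

theorem final (n : ℕ) (f : Finset (Fin n) → ℤ) (h0 : f ∅ = 0) (hmono : Monotone f)
    (hsub : ∀ A B : Finset (Fin n), f (A ∪ B) + f (A ∩ B) ≤ f A + f B)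
    (htwo : ∀ e : Fin n, f {e} ≤ 2) (hone : ∀ A : Finset (Fin n), (A.card : ℤ) ≤ f A)
    (hgood : Good univ (trunc f)) :
    ∃ v ∈ Set.extremePoints ℝ
          {x : Fin n → ℝ | (∀ i, 0 ≤ x i) ∧
            ∀ A : Finset (Fin n), ∑ i ∈ A, x i ≤ (f A : ℝ)},
        (∀ i, 0 ≤ 2 - v i) ∧
          ∀ A : Finset (Fin n), ∑ i ∈ A, (2 - v i) ≤ (f A : ℝ) := by
  have hP : Pm univ f := ⟨h0, fun A B hAB _ => hmono hAB, fun A _ B _ => hsub A B,
    fun e _ => htwo e, fun A _ => hone A⟩
  have hcn : ((univ : Finset (Fin n)).card : ℤ) = n := by simp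
  have htr : ∀ A, min (f A) ((univ : Finset (Fin n)).card : ℤ) = trunc f A := by
    intro A
    rw [hcn]
    rfl
  have hT := hP.trunc
  have hm' : Monotone (fun A : Finset (Fin n) => min (f A) ((univ : Finset (Fin n)).card : ℤ)) :=
    fun A B hAB => min_le_min_right _ (hmono hAB)
  have hS := P901b45e.sub_of (f := fun A => min (f A) ((univ : Finset (Fin n)).card : ℤ))
    hT.zero hm' (fun A B => hT.sub A (subset_univ _) B (subset_univ _))
    (fun e => hT.two e (mem_univ e)) (fun A => hT.one A (subset_univ _))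
  have huniv : min (f univ) ((univ : Finset (Fin n)).card : ℤ) = (univ : Finset (Fin n)).card :=
    min_eq_right (hone univ)
  have hG : (fun A : Finset (Fin n) => min (f A) ((univ : Finset (Fin n)).card : ℤ) - A.card)
      univ = 0 := by
    show min (f univ) ((univ : Finset (Fin n)).card : ℤ) - (univ : Finset (Fin n)).card = 0
    rw [huniv]; ring
  obtain ⟨x, hx⟩ : ∃ x, P901b45e.Sol univ
      (fun A : Finset (Fin n) => min (f A) ((univ : Finset (Fin n)).card : ℤ) - A.card) x := by
    refine sol_of_good hgood _ (fun S _ => ?_) hS hG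
    show trunc f S = min (f S) ((univ : Finset (Fin n)).card : ℤ) - (S.card : ℤ) + S.card
    rw [htr]
    ring
  refine main_of_sol n f h0 hmono hsub htwo hone ⟨fun i => 1 + x i, ?_⟩
  have hv : ∀ A : Finset (Fin n), ∑ i ∈ A, (1 + x i) = (A.card : ℤ) + ∑ i ∈ A, x i := by
    intro A
    rw [sum_add_distrib]
    simp
  have hle1 : ∀ i, x i ≤ 1 ∧ -x i ≤ 1 := by
    intro i
    have h1 := hx.le {i} (subset_univ _)
    have h2 := hx.neg_le {i} (subset_univ _)
    have h3 := hT.two i (mem_univ i)
    simp only [sum_singleton, card_singleton] at h1 h2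
    push_cast at h1 h2
    constructor <;> linarith
  refine ⟨?_, ?_, ?_, ?_⟩
  · intro i _
    have := (hle1 i).2
    show 0 ≤ 1 + x i
    linarith
  · intro i _
    have := (hle1 i).1
    show 1 + x i ≤ 2
    linarith
  · intro A _
    have h1 : -∑ e ∈ A, x e ≤ min (f A) ((univ : Finset (Fin n)).card : ℤ) - A.card :=
      hx.neg_le A (subset_univ _)
    show 2 * (A.card : ℤ) - ∑ i ∈ A, (1 + x i) ≤ min (f A) ((univ : Finset (Fin n)).card : ℤ)
    rw [hv]
    linarith
  · refine exists_ov hT.zero hT.sub ?_ ?_ ?_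
    · intro A _
      have h1 : ∑ e ∈ A, x e ≤ min (f A) ((univ : Finset (Fin n)).card : ℤ) - A.card :=
        hx.le A (subset_univ _)
      rw [hv]
      linarith
    · have h1 : ∑ e ∈ univ, x e = min (f univ) ((univ : Finset (Fin n)).card : ℤ) -
        (univ : Finset (Fin n)).card := hx.tight
      rw [hv]
      linarith
    · intro i _ j _ hij
      obtain ⟨X, hX, hXt, hXs⟩ := hx.sep i (mem_univ i) j (mem_univ j) hij
      refine ⟨X, hX, ?_, hXs⟩
      have h1 : ∑ e ∈ X, x e = min (f X) ((univ : Finset (Fin n)).card : ℤ) - X.card := hXt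
      rw [hv]
      linarith

end Pool.Agent.P901b45f
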