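import Pool.Agent.Lib.P901b45k.Slice
import Pool.Agent.Lib.P901b45k.Pts
import Pool.Agent.Lib.P901b45f.Dom

/-!
Two kinds of terminal functions for the removal of dominated pairs of sets (MP_901b45_co).
-/

set_option autoImplicit false

namespace Pool.Agent.P901b45f

open Finset Pool.Agent.P901b45e Pool.Agent.P901b45d

variable {α : Type*} [DecidableEq α] {G : Finset α} {h : Finset α → ℤ} {x : α → ℤ}

/-- `y` is an integral point of the slice `y(A) = s` of the base polytope of `q` on `I` -/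
def InSlice {α : Type*} (I : Finset α) (q : Finset α → ℤ) (A : Finset α) (s : ℤ) (y : α → ℤ) :
    Prop :=
  (∀ S ⊆ I, ∑ i ∈ S, y i ≤ q S) ∧ ∑ i ∈ I, y i = I.card ∧ ∑ i ∈ A, y i = s

/-- for some `A ⊆ I` and `s ≠ |A|` the slice `y(A) = s` of the base polytope of `q` has an integral
point, and `2 - y` satisfies the inequalities of `q` for every integral point `y` of it -/
def HasSlice {α : Type*} (I : Finset α) (q : Finset α → ℤ) : Prop :=
  ∃ A ⊆ I, ∃ s : ℤ, s ≠ A.card ∧ (∃ y : α → ℤ, InSlice I q A s y) ∧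
    ∀ y : α → ℤ, InSlice I q A s y → ∀ S ⊆ I, ∑ i ∈ S, (2 - y i) ≤ q S

/-- the two kinds of terminal functions -/
def Fine {α : Type*} [DecidableEq α] (I : Finset α) (q : Finset α → ℤ) : Prop :=
  Almost I q ∨ HasSlice I q

omit [DecidableEq α] in
theorem InSlice.congr {I A : Finset α} {g g' : Finset α → ℤ} {s : ℤ} {y : α → ℤ}
    (hg : ∀ S ⊆ I, g S = g' S) (h : InSlice I g A s y) : InSlice I g' A s y :=
  ⟨fun S hS => by rw [← hg S hS]; exact h.1 S hS, h.2⟩

omit [DecidableEq α] in
theorem HasSlice.congr {I : Finset α} {g g' : Finset α → ℤ} (hg : ∀ S ⊆ I, g S = g' S)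
    (h : HasSlice I g) : HasSlice I g' := by
  obtain ⟨A, hA, s, hs, ⟨y, hy⟩, hall⟩ := h
  refine ⟨A, hA, s, hs, ⟨y, hy.congr hg⟩, fun y hy S hS => ?_⟩
  rw [← hg S hS]
  exact hall y (hy.congr fun S hS => (hg S hS).symm) S hS

theorem Fine.congr {I : Finset α} {g g' : Finset α → ℤ} (hg : ∀ S ⊆ I, g S = g' S)
    (h : Fine I g) : Fine I g' := by
  rcases h with h | h
  · exact Or.inl (h.congr hg)
  · exact Or.inr (h.congr hg)

/-- a slice on one side of the centre gives a solution -/
theorem sol_of_side (hh : Sub G h) (hG : h G = 0) {A : Finset α} (hA : A ⊆ G) {s : ℤ}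
    (hs : s < A.card) (hne : ∃ y : α → ℤ, InSlice G (fun S => h S + S.card) A s y)
    (hall : ∀ y : α → ℤ, InSlice G (fun S => h S + S.card) A s y →
      ∀ S ⊆ G, ∑ i ∈ S, (2 - y i) ≤ h S + S.card) : ∃ x, Sol G h x := by
  have hsum : ∀ (S : Finset α) (y : α → ℤ), ∑ i ∈ S, (1 - y i) = S.card - ∑ i ∈ S, y i := by
    intro S y
    rw [sum_sub_distrib]
    simp
  refine P901b45k.Cut.sol hh hG (A := A) (c := A.card - s) (P901b45k.cut_of_points hh hG hA
    (by linarith) ?_ ?_)
  · obtain ⟨y, h1, h2, h3⟩ := hne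
    refine ⟨fun e => 1 - y e, ?_, ?_, ?_⟩
    · intro D hD
      have h4 : ∑ i ∈ D, y i ≤ h D + D.card := h1 D hD
      rw [hsum]
      linarith
    · rw [hsum, h2]; ring
    · rw [hsum, h3]
  · intro u hu S hS
    obtain ⟨h1, h2, h3⟩ := hu
    have h4 := hall (fun e => 1 - u e) ⟨?_, ?_, ?_⟩ S hS
    · have h5 : ∑ i ∈ S, (2 - (1 - u i)) = S.card + ∑ i ∈ S, u i := by
        have h6 : ∀ i ∈ S, (2 - (1 - u i)) = 1 + u i := fun i _ => by ring
        rw [sum_congr rfl h6, sum_add_distrib]
        simp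
      rw [h5] at h4
      linarith
    · intro D hD
      have h5 := h1 D hD
      show ∑ i ∈ D, (1 - u i) ≤ h D + D.card
      rw [hsum]
      linarith
    · rw [hsum, h2]; ring
    · rw [hsum, h3]; ring

theorem sol_of_slice (hh : Sub G h) (hG : h G = 0)
    (hs : HasSlice G (fun S => h S + S.card)) : ∃ x, Sol G h x := by
  obtain ⟨A, hA, s, hsA, hne, hall⟩ := hs
  rcases lt_or_gt_of_ne hsA with h1 | h1
  · exact sol_of_side hh hG hA h1 hne hall
  · have hcard : ((G \ A).card : ℤ) + A.card = G.card := by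
      exact_mod_cast card_sdiff_add_card_eq_card hA
    have hiff : ∀ y : α → ℤ, InSlice G (fun S => h S + S.card) (G \ A) (G.card - s) y ↔
        InSlice G (fun S => h S + S.card) A s y := by
      intro y
      have h2 := Finset.sum_sdiff hA (f := y)
      constructor
      · rintro ⟨h3, h4, h5⟩
        exact ⟨h3, h4, by linarith⟩
      · rintro ⟨h3, h4, h5⟩
        exact ⟨h3, h4, by linarith⟩
    obtain ⟨y, hy⟩ := hne
    exact sol_of_side hh hG (sdiff_subset : G \ A ⊆ G) (s := G.card - s) (by linarith)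
      ⟨y, (hiff y).2 hy⟩ (fun y hy => hall y ((hiff y).1 hy))

theorem sol_of_fine {α : Type} [DecidableEq α] {G : Finset α} {h : Finset α → ℤ}
    (hh : Sub G h) (hG : h G = 0) (hf : Fine G (fun S => h S + S.card)) : ∃ x, Sol G h x := by
  rcases hf with hf | hf
  · exact sol_of_almost hh hG hf
  · exact sol_of_slice hh hG hf

/-- all irreducible minors on at least eight elements without dominated pairs of sets are of one of
the two kinds -/
def Comp (G : Finset α) (h : Finset α → ℤ) : Prop :=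
  ∀ I ⊆ G, 8 ≤ I.card → ∀ A ⊆ G, Disjoint A I →
    (∀ S ⊆ I, S ≠ ∅ → S ≠ I → h A < h (A ∪ S)) → h (A ∪ I) = h A →
    (∀ T R, ¬ DomS I (fun S => h (A ∪ S) - h A) T R) →
    Fine I (fun S => h (A ∪ S) - h A + S.card)

theorem dominance {α : Type} [DecidableEq α] (n : ℕ) : ∀ (G : Finset α) (h : Finset α → ℤ),
    G.card = n → Sub G h → h G = 0 → Comp G h → ∃ x, Sol G h x := by
  induction n using Nat.strong_induction_on with
  | _ n ih =>
  intro G h hn hh hG hcomp
  by_cases hred : ∃ S ⊆ G, S ≠ ∅ ∧ S ≠ G ∧ h S = 0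
  · obtain ⟨S, hS, hS1, hS2, hS0⟩ := hred
    have hSG : S ⊂ G := lt_of_le_of_ne hS hS2
    obtain ⟨x, hx⟩ := ih S.card (hn ▸ card_lt_card hSG) S h rfl (hh.restrict hS) hS0
      (by
        intro I hI hI8 A hA hd h1 h2 hinc
        exact hcomp I (hI.trans hS) hI8 A (hA.trans hS) hd h1 h2 hinc)
    have hlt : (G \ S).card < G.card := by
      apply card_lt_card
      refine lt_of_le_of_ne sdiff_subset (fun e => ?_)
      obtain ⟨s, hs⟩ := nonempty_iff_ne_empty.2 hS1
      have := hS hs
      rw [← e] at this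
      exact (mem_sdiff.1 this).2 hs
    obtain ⟨y, hy⟩ := ih (G \ S).card (hn ▸ hlt) (G \ S) (fun T => h (S ∪ T)) rfl
      (hh.contract hS hS0) (by
        show h (S ∪ (G \ S)) = 0
        rw [union_sdiff_of_subset hS, hG])
      (by
        intro I hI hI8 A hA hdis h1 h2 hinc
        have h1' : ∀ U ⊆ I, U ≠ ∅ → U ≠ I → h (S ∪ A) < h (S ∪ (A ∪ U)) := h1
        have h2' : h (S ∪ (A ∪ I)) = h (S ∪ A) := h2
        have hinc' : ∀ T R, ¬ DomS I (fun U => h (S ∪ (A ∪ U)) - h (S ∪ A)) T R := hinc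
        have h6 := hcomp I (hI.trans sdiff_subset) hI8 (S ∪ A)
          (union_subset hS (hA.trans sdiff_subset))
          (by
            rw [disjoint_union_left]
            refine ⟨?_, hdis⟩
            rw [disjoint_left]
            intro y hy hy'
            exact (mem_sdiff.1 (hI hy')).2 hy)
          (fun U hU h3 h4 => by rw [union_assoc]; exact h1' U hU h3 h4)
          (by rw [union_assoc]; exact h2')
          (fun T R hTR => hinc' T R (by simpa only [union_assoc] using hTR))
        refine h6.congr fun U _ => ?_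
        show h (S ∪ A ∪ U) - h (S ∪ A) + (U.card : ℤ) = h (S ∪ (A ∪ U)) - h (S ∪ A) + (U.card : ℤ)
        rw [union_assoc])
    exact ⟨_, glue hh hS hS0 hx hy⟩
  push Not at hred
  have hirr : ∀ A ⊆ G, A ≠ ∅ → A ≠ G → 1 ≤ h A := by
    intro A hA h3 h4
    have h5 := hh.nonneg A hA
    have h6 := hred A hA (nonempty_iff_ne_empty.2 h3) h4
    omega
  by_cases hcard : G.card ≤ 7
  · exact base_seven hh hG hirr hcard
  by_cases hpair : ∃ T R, DomS G h T R
  swap
  · refine sol_of_fine hh hG ?_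
    have h6 := hcomp G (Subset.refl _) (by omega) ∅
      (empty_subset _) (disjoint_empty_left _)
      (fun S hS h3 h4 => by
        rw [hh.empty, empty_union]
        have := hirr S hS h3 h4
        omega)
      (by rw [empty_union, hG, hh.empty])
      (fun T R hTR => hpair ⟨T, R, by
        simpa only [empty_union, hh.empty, sub_zero] using hTR⟩)
    refine h6.congr fun S _ => ?_
    show h (∅ ∪ S) - h ∅ + (S.card : ℤ) = h S + S.card
    rw [empty_union, hh.empty, sub_zero]
  obtain ⟨T, R, hd⟩ := hpair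
  have hsub' := reduce_sub hh hd
  have htot := hd.card_right hh hG
  have hT := hd.1
  have hG' : G \ (T ∪ R) ⊆ G := sdiff_subset
  have hlt : (G \ (T ∪ R)).card < G.card := by
    obtain ⟨a, ha⟩ := hd.2.2.2.1
    apply card_lt_card
    refine lt_of_le_of_ne sdiff_subset (fun e => ?_)
    have := hT ha
    rw [← e] at this
    exact (mem_sdiff.1 this).2 (mem_union_left _ ha)
  obtain ⟨z, hz⟩ := ih _ (hn ▸ hlt) (G \ (T ∪ R)) (fun A => h (T ∪ A) - T.card) rfl
    hsub' (by
      show h (T ∪ (G \ (T ∪ R))) - T.card = 0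
      rw [htot]; ring) (by
      intro I hI hI8 A hA hdis h1 h2 hinc
      have h1' : ∀ U ⊆ I, U ≠ ∅ → U ≠ I →
        h (T ∪ A) - (T.card : ℤ) < h (T ∪ (A ∪ U)) - T.card := h1
      have h2' : h (T ∪ (A ∪ I)) - (T.card : ℤ) = h (T ∪ A) - T.card := h2
      have hinc' : ∀ T' R', ¬ DomS I (fun U => h (T ∪ (A ∪ U)) - (T.card : ℤ) -
        (h (T ∪ A) - T.card)) T' R' := hinc
      have e3 : (fun U => h (T ∪ A ∪ U) - h (T ∪ A)) =
          (fun U => h (T ∪ (A ∪ U)) - (T.card : ℤ) - (h (T ∪ A) - T.card)) := by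
        funext U
        rw [union_assoc]
        ring
      have h6 := hcomp I (hI.trans hG') hI8 (T ∪ A) (union_subset hT (hA.trans hG'))
        (by
          rw [disjoint_union_left]
          refine ⟨?_, hdis⟩
          rw [disjoint_left]
          intro y hy hy'
          exact (mem_sdiff.1 (hI hy')).2 (mem_union_left _ hy))
        (fun U hU h3 h4 => by
          rw [union_assoc]
          have := h1' U hU h3 h4
          linarith)
        (by rw [union_assoc]; linarith)
        (fun T' R' hTR => hinc' T' R' (by rw [← e3]; exact hTR))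
      refine h6.congr fun U _ => ?_
      show h (T ∪ A ∪ U) - h (T ∪ A) + (U.card : ℤ) =
        h (T ∪ (A ∪ U)) - (T.card : ℤ) - (h (T ∪ A) - T.card) + (U.card : ℤ)
      rw [union_assoc]
      ring)
  exact ⟨_, reduce_sol hh hG hd hz⟩

end Pool.Agent.P901b45f
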