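import Pool.Agent.Lib.P901b45f.DataS

/-!
Kernel check of a part of the refutation (MP_901b45_co).
-/

set_option autoImplicit false
set_option maxRecDepth 100000

namespace Pool.Agent.P901b45f

theorem ks0 : allR (chk dbS axS 7 2169 4093 154) 8 0 = true := by decide +kernel

theorem ks1 : allR (chk dbS axS 7 2169 4093 154) 8 1 = true := by decide +kernel

theorem ks2 : allR (chk dbS axS 7 2169 4093 154) 8 2 = true := by decide +kernel

theorem ks3 : allR (chk dbS axS 7 2169 4093 154) 8 3 = true := by decide +kernel

end Pool.Agent.P901b45f
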