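import Pool.Agent.Lib.P901b45f.Chk

/-!
The input clauses of the refutations (MP_901b45_co).
-/

set_option autoImplicit false

namespace Pool.Agent.P901b45f

/-- the hypotheses about a function on the subsets of an 8-element set, given by bitmasks -/
structure Hyp (H : ℕ → ℕ) (t : ℕ) : Prop where
  lo : ∀ S < 256, lo S ≤ H S
  hi : ∀ S < 256, H S ≤ hi S
  up : ∀ S < 256, ∀ e < 8, S.testBit e = false → H (S ||| 2 ^ e) ≤ H S + 1
  dn : ∀ S < 256, ∀ e < 8, S.testBit e = false → H S ≤ H (S ||| 2 ^ e) + 1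
  sq : ∀ B < 256, ∀ a < 8, ∀ b < 8, a ≠ b → B.testBit a = false → B.testBit b = false →
    H (B ||| 2 ^ a ||| 2 ^ b) + H B ≤ H (B ||| 2 ^ a) + H (B ||| 2 ^ b)
  xp : ∀ S < 256, pc (S &&& 3) ≤ H S + pc (S &&& 12)
  xm : ∀ S < 256, pc (S &&& 12) ≤ H S + pc (S &&& 3)
  tp : ∀ S < 256, S.testBit 4 ≠ S.testBit 5 → pc (S &&& 3) + 1 ≤ H S + pc (S &&& 12)
  tm : ∀ S < 256, S.testBit 6 ≠ S.testBit t → pc (S &&& 12) + 1 ≤ H S + pc (S &&& 3)
  y : ∀ P < 256, ∀ N < 256, P &&& N = 0 → pc P = 3 → pc N = 3 →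
    ∃ S < 256, H S + pc (S &&& N) < pc (S &&& P) ∨ H S + pc (S &&& P) < pc (S &&& N)

/-- fields of a code -/
def fld (c k : ℕ) : ℕ := Nat.mod (Nat.div c (Nat.pow 256 k)) 256

def dif (a b : ℕ) : ℕ := (a - b) + (b - a)

/-- the clause of a code: the last field is the kind -/
def mk (c : ℕ) : ℕ :=
  match fld c 0 with
  | 0 => Nat.lor (nge (fld c 1) 3) (ge (fld c 1) 2)
  | 1 => Nat.lor (nge (fld c 1 ||| 2 ^ fld c 2) (fld c 3 + 1)) (ge (fld c 1) (fld c 3))
  | 2 => Nat.lor (nge (fld c 1) (fld c 3 + 1)) (ge (fld c 1 ||| 2 ^ fld c 2) (fld c 3))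
  | 3 => Nat.lor (Nat.lor (nge (fld c 1) (fld c 4))
      (nge (fld c 1 ||| 2 ^ fld c 2 ||| 2 ^ fld c 3) (fld c 5)))
      (Nat.lor (ge (fld c 1 ||| 2 ^ fld c 2) (fld c 6 + 1))
      (ge (fld c 1 ||| 2 ^ fld c 3) (fld c 4 + fld c 5 - fld c 6)))
  | 4 => ge (fld c 1) (dif (pc (fld c 1 &&& 3)) (pc (fld c 1 &&& 12)))
  | 5 => ge (fld c 1) (pc (fld c 1 &&& 3) + 1 - pc (fld c 1 &&& 12))
  | 6 => ge (fld c 1) (pc (fld c 1 &&& 12) + 1 - pc (fld c 1 &&& 3))
  | _ => orR (fun S => nge S (dif (pc (S &&& fld c 1)) (pc (S &&& fld c 2)))) 8 0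

/-- the side conditions of a code -/
def ok (t c : ℕ) : Bool :=
  match fld c 0 with
  | 0 => okn (fld c 1) 3 && okg (fld c 1) 2
  | 1 => decide (fld c 2 < 8) && !(fld c 1).testBit (fld c 2) &&
      okn (fld c 1 ||| 2 ^ fld c 2) (fld c 3 + 1) && okg (fld c 1) (fld c 3)
  | 2 => decide (fld c 2 < 8) && !(fld c 1).testBit (fld c 2) &&
      okn (fld c 1) (fld c 3 + 1) && okg (fld c 1 ||| 2 ^ fld c 2) (fld c 3)
  | 3 => decide (fld c 2 < 8) && decide (fld c 3 < 8) && decide (fld c 2 ≠ fld c 3) &&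
      !(fld c 1).testBit (fld c 2) && !(fld c 1).testBit (fld c 3) &&
      okn (fld c 1) (fld c 4) && okn (fld c 1 ||| 2 ^ fld c 2 ||| 2 ^ fld c 3) (fld c 5) &&
      okg (fld c 1 ||| 2 ^ fld c 2) (fld c 6 + 1) &&
      okg (fld c 1 ||| 2 ^ fld c 3) (fld c 4 + fld c 5 - fld c 6) &&
      decide (fld c 6 < fld c 4 + fld c 5)
  | 4 => okg (fld c 1) (dif (pc (fld c 1 &&& 3)) (pc (fld c 1 &&& 12)))
  | 5 => okg (fld c 1) (pc (fld c 1 &&& 3) + 1 - pc (fld c 1 &&& 12)) &&
      ((fld c 1).testBit 4 != (fld c 1).testBit 5)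
  | 6 => okg (fld c 1) (pc (fld c 1 &&& 12) + 1 - pc (fld c 1 &&& 3)) &&
      ((fld c 1).testBit 6 != (fld c 1).testBit t)
  | _ => decide (fld c 1 &&& fld c 2 = 0) && decide (pc (fld c 1) = 3) &&
      decide (pc (fld c 2) = 3)

theorem fld_lt (c k : ℕ) : fld c k < 256 := Nat.mod_lt _ (by norm_num)

theorem lo_pos_le {H : ℕ → ℕ} {t : ℕ} (hH : Hyp H t) {S : ℕ} (hS : S < 256) : lo S ≤ H S :=
  hH.lo S hS

theorem or_lt {S e : ℕ} (hS : S < 256) (he : e < 8) : S ||| 2 ^ e < 256 := by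
  have h1 : (2 : ℕ) ^ e < 2 ^ 8 := Nat.pow_lt_pow_right (by norm_num) he
  have h2 : S < 2 ^ 8 := by norm_num; exact hS
  have := Nat.or_lt_two_pow h2 h1
  norm_num at this
  exact this

theorem pc_le8 (S : ℕ) : pc S ≤ 8 := by unfold pc; omega

theorem bit_and (S P k : ℕ) : (S &&& P) / 2 ^ k % 2 ≤ P / 2 ^ k % 2 := by
  rw [← Nat.toNat_testBit, ← Nat.toNat_testBit, Nat.testBit_and]
  cases S.testBit k <;> cases P.testBit k <;> simp

theorem pc_eq (m : ℕ) : pc m = m / 2 ^ 0 % 2 + m / 2 ^ 1 % 2 + m / 2 ^ 2 % 2 + m / 2 ^ 3 % 2 +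
    m / 2 ^ 4 % 2 + m / 2 ^ 5 % 2 + m / 2 ^ 6 % 2 + m / 2 ^ 7 % 2 := by
  unfold pc
  rw [show m / 2 ^ 0 = m from by simp]
  rfl

theorem pc_and_le : ∀ P < 256, ∀ S < 256, pc (S &&& P) ≤ pc P := by
  intro P _ S _
  rw [pc_eq, pc_eq]
  exact add_le_add (add_le_add (add_le_add (add_le_add (add_le_add (add_le_add (add_le_add
    (bit_and S P 0) (bit_and S P 1)) (bit_and S P 2)) (bit_and S P 3)) (bit_and S P 4))
    (bit_and S P 5)) (bit_and S P 6)) (bit_and S P 7)

theorem lo_zero {S : ℕ} (h : lo S = 0) : S = 0 ∨ S = 255 := by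
  by_contra hne
  push Not at hne
  have h1 : Nat.beq S 0 = false := by
    cases h2 : Nat.beq S 0 with
    | false => rfl
    | true => exact absurd (Nat.eq_of_beq_eq_true h2) hne.1
  have h3 : Nat.beq S 255 = false := by
    cases h2 : Nat.beq S 255 with
    | false => rfl
    | true => exact absurd (Nat.eq_of_beq_eq_true h2) hne.2
  rw [lo, h1, h3] at h
  simp at h

theorem and255 {P : ℕ} (hP : P < 256) : 255 &&& P = P := by
  rw [Nat.and_comm]
  have := Nat.and_two_pow_sub_one_eq_mod P 8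
  norm_num at this
  rw [this]
  omega

theorem mk_sound {H : ℕ → ℕ} {t : ℕ} (hH : Hyp H t) (c : ℕ) (hok : ok t c = true) :
    Sat H (mk c) := by
  have l1 := fld_lt c 1
  unfold mk
  unfold ok at hok
  split at hok
  · simp only [Bool.and_eq_true] at hok
    by_cases h : H (fld c 1) < 3
    · exact (nge_sound (hH.lo _ l1) hok.1 h).left
    · exact (ge_sound (hH.hi _ l1) hok.2 (by omega)).right
  · simp only [Bool.and_eq_true, decide_eq_true_eq, Bool.not_eq_true'] at hok
    obtain ⟨⟨⟨h1, h2⟩, h3⟩, h4⟩ := hok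
    have l2 := or_lt l1 h1
    by_cases h : H (fld c 1 ||| 2 ^ fld c 2) < fld c 3 + 1
    · exact (nge_sound (hH.lo _ l2) h3 h).left
    · refine (ge_sound (hH.hi _ l1) h4 ?_).right
      have := hH.up _ l1 _ h1 h2
      omega
  · simp only [Bool.and_eq_true, decide_eq_true_eq, Bool.not_eq_true'] at hok
    obtain ⟨⟨⟨h1, h2⟩, h3⟩, h4⟩ := hok
    have l2 := or_lt l1 h1
    by_cases h : H (fld c 1) < fld c 3 + 1
    · exact (nge_sound (hH.lo _ l1) h3 h).left
    · refine (ge_sound (hH.hi _ l2) h4 ?_).right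
      have := hH.dn _ l1 _ h1 h2
      omega
  · simp only [Bool.and_eq_true, decide_eq_true_eq, Bool.not_eq_true'] at hok
    obtain ⟨⟨⟨⟨⟨⟨⟨⟨⟨h1, h2⟩, h3⟩, h4⟩, h5⟩, h6⟩, h7⟩, h8⟩, h9⟩, h10⟩ := hok
    have l2 := or_lt l1 h1
    have l3 := or_lt l1 h2
    have l4 := or_lt l2 h2
    by_cases k1 : H (fld c 1) < fld c 4
    · exact (nge_sound (hH.lo _ l1) h6 k1).left.left
    by_cases k2 : H (fld c 1 ||| 2 ^ fld c 2 ||| 2 ^ fld c 3) < fld c 5
    · exact (nge_sound (hH.lo _ l4) h7 k2).right.left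
    by_cases k3 : fld c 6 + 1 ≤ H (fld c 1 ||| 2 ^ fld c 2)
    · exact (ge_sound (hH.hi _ l2) h8 k3).left.right
    refine (ge_sound (hH.hi _ l3) h9 ?_).right.right
    have := hH.sq _ l1 _ h1 _ h2 h3 h4 h5
    omega
  · refine ge_sound (hH.hi _ l1) hok ?_
    have h1 := hH.xp _ l1
    have h2 := hH.xm _ l1
    unfold dif
    omega
  · simp only [Bool.and_eq_true, bne_iff_ne] at hok
    refine ge_sound (hH.hi _ l1) hok.1 ?_
    have h1 := hH.tp _ l1 hok.2
    omega
  · simp only [Bool.and_eq_true, bne_iff_ne] at hok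
    refine ge_sound (hH.hi _ l1) hok.1 ?_
    have h1 := hH.tm _ l1 hok.2
    omega
  · rename_i a0 a1 a2 a3 a4 a5 a6
    simp only [Bool.and_eq_true, decide_eq_true_eq] at hok
    obtain ⟨⟨h1, h2⟩, h3⟩ := hok
    obtain ⟨S, hS, hy⟩ := hH.y _ l1 _ (fld_lt c 2) h1 h2 h3
    have hlt : H S < dif (pc (S &&& fld c 1)) (pc (S &&& fld c 2)) := by
      unfold dif
      omega
    have key : Sat H (nge S (dif (pc (S &&& fld c 1)) (pc (S &&& fld c 2)))) := by
      refine nge_sound (hH.lo _ hS) ?_ hlt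
      have b1 := pc_and_le _ l1 S hS
      have b2 := pc_and_le _ (fld_lt c 2) S hS
      have b3 := hH.lo S hS
      unfold okn
      by_cases h9 : dif (pc (S &&& fld c 1)) (pc (S &&& fld c 2)) ≤ lo S
      · rw [Nat.ble_eq_true_of_le h9]; rfl
      · have h10 : 2 ≤ dif (pc (S &&& fld c 1)) (pc (S &&& fld c 2)) := by
          by_contra h11
          have h13 : lo S = 0 := by omega
          rcases lo_zero h13 with rfl | rfl
          · rw [Nat.zero_and, Nat.zero_and] at hlt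
            unfold dif at hlt
            omega
          · rw [and255 l1, and255 (fld_lt c 2), h2, h3] at hlt
            unfold dif at hlt
            omega
        have h11 : dif (pc (S &&& fld c 1)) (pc (S &&& fld c 2)) ≤ 3 := by
          unfold dif
          omega
        rw [Nat.ble_eq_true_of_le h10, Nat.ble_eq_true_of_le h11]
        simp
    exact orR_sound 8 0 S (by omega) (by omega) key

/-- one entry of a refutation: input clauses come from codes, derived ones by unit propagation -/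
noncomputable def chk (db aux : T) (t n0 n fuel i : ℕ) : Bool :=
  bif Nat.blt i n0 then
    bif ok t (aux.get i) then Nat.beq (Nat.lor (mk (aux.get i)) (db.get i)) (db.get i) else false
  else bif Nat.blt i n then run db i fuel (aux.get i) (db.get i) else true

theorem refute {H : ℕ → ℕ} {t : ℕ} (hH : Hyp H t) {db aux : T} {n0 n fuel d : ℕ}
    (h : allR (chk db aux t n0 n fuel) d 0 = true) (hn : n < 2 ^ d)
    (hlast : run db n fuel (aux.get n) 0 = true) : False := by
  have key : ∀ m, m ≤ n → ∀ i < m, Sat H (db.get i) := by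
    intro m
    induction m with
    | zero => intro _ i hi; omega
    | succ m ih =>
      intro hm i hi
      by_cases him : i < m
      · exact ih (by omega) i him
      have him : i = m := by omega
      subst him
      have h1 := allR_sound d 0 h i (by omega) (by omega)
      unfold chk at h1
      cases h2 : Nat.blt i n0 with
      | true =>
        rw [h2, cond_true] at h1
        cases h3 : ok t (aux.get i) with
        | false => rw [h3] at h1; simp at h1
        | true =>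
          rw [h3, cond_true] at h1
          exact (mk_sound hH _ h3).of_sub h1
      | false =>
        rw [h2, cond_false] at h1
        have h4 : Nat.blt i n = true := Nat.ble_eq_true_of_le (by omega)
        rw [h4, cond_true] at h1
        exact step_sound (ih (by omega)) h1
  exact run_sound (key n le_rfl) fuel _ 0 (by simp) hlast

end Pool.Agent.P901b45f
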