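import Pool.Agent.Lib.P901b45e.Excess

/-!
Contraction of all elements outside `K` (MP_901b45_co): `k A` is the minimum of `h (A ∪ Y)`,
`Y ⊆ G \ K`.
-/

set_option autoImplicit false

namespace Pool.Agent.P901b45f

open Finset Pool.Agent.P901b45e

theorem reduce8 {α : Type*} [DecidableEq α] {G K : Finset α} {h : Finset α → ℤ} (hh : Sub G h)
    (hG : h G = 0) (hirr : ∀ A ⊆ G, A ≠ ∅ → A ≠ G → 1 ≤ h A) (hK : K ⊆ G) :
    ∃ k : Finset α → ℤ, Sub K k ∧ k K = 0 ∧ (∀ A ⊆ K, A ≠ ∅ → A ≠ K → 1 ≤ k A) ∧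
      (∀ A ⊆ K, ∃ B ⊆ G, B ∩ K = A ∧ k A = h B) ∧
      (∀ B ⊆ G, k (B ∩ K) ≤ h B) := by
  have hne : ((G \ K).powerset).Nonempty := ⟨∅, Finset.empty_mem_powerset _⟩
  let k : Finset α → ℤ := fun A => ((G \ K).powerset).inf' hne (fun Y => h (A ∪ Y))
  have ha : ∀ A, ∃ Y ⊆ G \ K, k A = h (A ∪ Y) := by
    intro A
    obtain ⟨Y, hY, hY2⟩ := Finset.exists_mem_eq_inf' hne (fun Y => h (A ∪ Y))
    exact ⟨Y, Finset.mem_powerset.1 hY, hY2⟩
  have hb : ∀ A, ∀ Y ⊆ G \ K, k A ≤ h (A ∪ Y) := by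
    intro A Y hY
    exact Finset.inf'_le (fun Y => h (A ∪ Y)) (Finset.mem_powerset.2 hY)
  have hsub : ∀ A ⊆ K, ∀ Y ⊆ G \ K, A ∪ Y ⊆ G := fun A hA Y hY =>
    union_subset (hA.trans hK) (hY.trans sdiff_subset)
  have hdis : ∀ A ⊆ K, ∀ Y ⊆ G \ K, Disjoint A Y := by
    intro A hA Y hY
    rw [Finset.disjoint_left]
    intro e he he2
    exact (mem_sdiff.1 (hY he2)).2 (hA he)
  have hcap : ∀ A ⊆ K, ∀ Y ⊆ G \ K, (A ∪ Y) ∩ K = A := by
    intro A hA Y hY
    ext e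
    rw [mem_inter, mem_union]
    constructor
    · rintro ⟨he | he, heK⟩
      · exact he
      · exact absurd heK (mem_sdiff.1 (hY he)).2
    · intro he
      exact ⟨Or.inl he, hA he⟩
  have hk0 : ∀ A ⊆ K, 0 ≤ k A := by
    intro A hA
    obtain ⟨Y, hY, e⟩ := ha A
    rw [e]
    exact hh.nonneg _ (hsub A hA Y hY)
  refine ⟨k, ⟨?_, hk0, ?_, ?_, ?_⟩, ?_, ?_, ?_, ?_⟩
  · apply le_antisymm _ (hk0 ∅ (empty_subset _))
    have := hb ∅ ∅ (empty_subset _)
    rw [union_empty, hh.empty] at this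
    exact this
  · intro A hA B hB
    obtain ⟨Y, hY, e1⟩ := ha A
    obtain ⟨Z, hZ, e2⟩ := ha B
    have h1 := hh.sub _ (hsub A hA Y hY) _ (hsub B hB Z hZ)
    have h2 := hb (A ∪ B) (Y ∪ Z) (union_subset hY hZ)
    have h3 := hb (A ∩ B) (Y ∩ Z) (inter_subset_left.trans hY)
    have e3 : A ∪ Y ∪ (B ∪ Z) = A ∪ B ∪ (Y ∪ Z) := by
      ext e
      simp only [mem_union]
      tauto
    have e4 : (A ∪ Y) ∩ (B ∪ Z) = A ∩ B ∪ Y ∩ Z := by
      ext e
      simp only [mem_union, mem_inter]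
      constructor
      · rintro ⟨he | he, he2 | he2⟩
        · exact Or.inl ⟨he, he2⟩
        · exact absurd (hA he) (mem_sdiff.1 (hZ he2)).2
        · exact absurd (hB he2) (mem_sdiff.1 (hY he)).2
        · exact Or.inr ⟨he, he2⟩
      · rintro (⟨he, he2⟩ | ⟨he, he2⟩)
        · exact ⟨Or.inl he, Or.inl he2⟩
        · exact ⟨Or.inr he, Or.inr he2⟩
    rw [e3, e4] at h1
    rw [e1, e2]
    linarith
  · intro A hA e he
    obtain ⟨Y, hY, e1⟩ := ha A
    have h1 := hb (insert e A) Y hY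
    have h2 := hh.up _ (hsub A hA Y hY) e (hK he)
    rw [insert_union] at h1
    rw [e1]
    linarith
  · intro A hA e he
    obtain ⟨Y, hY, e1⟩ := ha (insert e A)
    have h1 := hb A Y hY
    have h2 := hh.down _ (hsub A hA Y hY) e (hK he)
    rw [insert_union] at e1
    rw [e1]
    linarith
  · apply le_antisymm _ (hk0 K (Subset.refl _))
    have := hb K (G \ K) (Subset.refl _)
    rw [union_sdiff_of_subset hK, hG] at this
    exact this
  · intro A hA hA0 hAK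
    obtain ⟨Y, hY, e1⟩ := ha A
    rw [e1]
    apply hirr _ (hsub A hA Y hY)
    · intro h0
      exact hA0 (union_eq_empty.1 h0).1
    · intro h0
      apply hAK
      have h1 := hcap A hA Y hY
      rw [h0, inter_eq_right.2 hK] at h1
      exact h1.symm
  · intro A hA
    obtain ⟨Y, hY, e1⟩ := ha A
    exact ⟨A ∪ Y, hsub A hA Y hY, hcap A hA Y hY, e1⟩
  · intro B hB
    have h1 := hb (B ∩ K) (B \ K) (sdiff_subset_sdiff hB (Subset.refl _))
    have e1 : B ∩ K ∪ B \ K = B := by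
      ext e
      simp only [mem_union, mem_inter, mem_sdiff]
      tauto
    rwa [e1] at h1

end Pool.Agent.P901b45f
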