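import Pool.Agent.Lib.P901b45f.Red8
import Pool.Agent.Lib.P901b45f.Bridge8

/-!
# Irreducible functions with values at most three, at least eight elements (MP_901b45_co)

A vector with entries `1, -1, 0` below `h` and three entries `1` is a solution: for its set `P` of entries `1`
and a zero `i` the set `P ∪ {i}` is tight. Otherwise a vector `e_p + e_p' - e_q - e_q'` below `h` with a tied pair
of zeros and a pair of zeros tied for its negative gives the same on eight elements (`reduce8`), impossible by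
`no8`.
-/

set_option autoImplicit false

namespace Pool.Agent.P901b45f

open Finset Pool.Agent.P901b45e Pool.Agent.P901b45d

/-- numbering of eight elements -/
def cc {α : Type} (a0 a1 a2 a3 a4 a5 a6 a7 : α) : ℕ → α
  | 0 => a0
  | 1 => a1
  | 2 => a2
  | 3 => a3
  | 4 => a4
  | 5 => a5
  | 6 => a6
  | _ => a7

/-- extension by zero -/
theorem sum_ext_zero {α : Type} [DecidableEq α] {K B : Finset α} (y : α → ℤ) :
    ∑ e ∈ B, (if e ∈ K then y e else 0) = ∑ e ∈ B ∩ K, y e := by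
  rw [← sum_filter, filter_mem_eq_inter]

theorem V.extend {α : Type} [DecidableEq α] {G K : Finset α} {h k : Finset α → ℤ} {y : α → ℤ}
    (hB : ∀ B ⊆ G, k (B ∩ K) ≤ h B) (hy : V K k y) :
    V G h (fun e => if e ∈ K then y e else 0) := by
  refine ⟨?_, ?_, ?_⟩
  · intro A hA
    rw [sum_ext_zero]
    exact (hy.le _ inter_subset_right).trans (hB A hA)
  · intro A hA
    rw [sum_ext_zero]
    exact (hy.neg_le _ inter_subset_right).trans (hB A hA)
  · intro e _
    show (if e ∈ K then y e else 0) = 1 ∨ (if e ∈ K then y e else 0) = -1 ∨ (if e ∈ K then y e else 0) = 0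
    by_cases h1 : e ∈ K
    · rw [if_pos h1]; exact hy.val e h1
    · rw [if_neg h1]; exact Or.inr (Or.inr rfl)

/-- a vector below `h` with three entries `1` is a solution -/
theorem V.big {α : Type} [DecidableEq α] {G : Finset α} {h : Finset α → ℤ} {y : α → ℤ} (hh : Sub G h)
    (hG : h G = 0) (h3 : ∀ A ⊆ G, h A ≤ 3) (hno : ¬ ∃ x, P901b45e.Sol G h x) (hy : V G h y) :
    (G.filter (fun e => y e = 1)).card < 3 := by
  by_contra hc
  obtain ⟨i, hi, j, hj, hij, hi0, hj0, ht⟩ := hy.tie hh hG hno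
  have hP : G.filter (fun e => y e = 1) ⊆ G := filter_subset _ _
  have hs : ∑ e ∈ G.filter (fun e => y e = 1), y e = (G.filter (fun e => y e = 1)).card := by
    rw [sum_congr rfl (fun e he => (mem_filter.1 he).2)]
    simp
  have hiP : i ∉ G.filter (fun e => y e = 1) := fun h1 => by
    have := (mem_filter.1 h1).2
    omega
  have hX : insert i (G.filter (fun e => y e = 1)) ⊆ G := insert_subset_iff.2 ⟨hi, hP⟩
  have h4 := hy.le _ hX
  have h5 := h3 _ hX
  have h6 : ∑ e ∈ insert i (G.filter (fun e => y e = 1)), y e =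
      (G.filter (fun e => y e = 1)).card := by
    rw [sum_insert hiP, hs, hi0, zero_add]
  have h7 := (ht _ hX (by omega)).1 (mem_insert_self _ _)
  rcases mem_insert.1 h7 with h8 | h8
  · exact hij h8.symm
  · have := (mem_filter.1 h8).2
    omega

theorem three_core {α : Type} [DecidableEq α] {G : Finset α} {h : Finset α → ℤ} (hh : Sub G h)
    (hG : h G = 0) (hirr : ∀ A ⊆ G, A ≠ ∅ → A ≠ G → 1 ≤ h A) (h3 : ∀ A ⊆ G, h A ≤ 3)
    (hno3 : ∀ y : α → ℤ, V G h y → (G.filter (fun e => y e = 1)).card < 3)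
    {p p' q q' a b c d : α} (hsub : ∀ e ∈ [p, p', q, q', a, b, c, d], e ∈ G)
    (hnd : [p, p', q, q', a, b, c, d].Nodup) (hv : V G h (vec p p' q q'))
    (htie : ∀ X ⊆ G, ∑ e ∈ X, vec p p' q q' e = h X → (a ∈ X ↔ b ∈ X))
    (t : ℕ) (ht : t = 5 ∨ t = 7)
    (hmtie : ∀ X ⊆ G, -∑ e ∈ X, vec p p' q q' e = h X →
      (c ∈ X ↔ cc p p' q q' a b c d t ∈ X)) : False := by
  have hcl : ∀ i (hi : i < 8), cc p p' q q' a b c d i =
      [p, p', q, q', a, b, c, d][i]'(by simpa using hi) := by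
    intro i hi
    interval_cases i <;> rfl
  have hc : ∀ i < 8, ∀ j < 8, cc p p' q q' a b c d i = cc p p' q q' a b c d j → i = j := by
    intro i hi j hj hij
    rw [hcl i hi, hcl j hj] at hij
    exact (List.Nodup.getElem_inj_iff hnd).1 hij
  obtain ⟨K, hKd⟩ : ∃ K, K = (range 8).image (cc p p' q q' a b c d) := ⟨_, rfl⟩
  have hmem : ∀ i < 8, cc p p' q q' a b c d i ∈ K := by
    intro i hi
    rw [hKd]
    exact mem_image_of_mem _ (mem_range.2 hi)
  have hKG : K ⊆ G := by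
    intro e he
    rw [hKd] at he
    obtain ⟨i, hi, rfl⟩ := mem_image.1 he
    rw [hcl i (mem_range.1 hi)]
    exact hsub _ (List.getElem_mem _)
  have hne : ∀ i < 8, ∀ j < 8, i ≠ j → cc p p' q q' a b c d i ≠ cc p p' q q' a b c d j :=
    fun i hi j hj hij h1 => hij (hc i hi j hj h1)
  have hx : ∀ i < 8, vec p p' q q' (cc p p' q q' a b c d i) =
      (if i = 0 then 1 else 0) + (if i = 1 then 1 else 0) - (if i = 2 then 1 else 0) -
        (if i = 3 then 1 else 0) := by
    intro i hi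
    have e0 : ∀ j < 8, (cc p p' q q' a b c d i = cc p p' q q' a b c d j ↔ i = j) :=
      fun j hj => ⟨hc i hi j hj, fun h1 => by rw [h1]⟩
    unfold vec
    have e1 := e0 0 (by norm_num)
    have e2 := e0 1 (by norm_num)
    have e3 := e0 2 (by norm_num)
    have e4 := e0 3 (by norm_num)
    have e1' : (cc p p' q q' a b c d i = p ↔ i = 0) := e1
    have e2' : (cc p p' q q' a b c d i = p' ↔ i = 1) := e2
    have e3' : (cc p p' q q' a b c d i = q ↔ i = 2) := e3
    have e4' : (cc p p' q q' a b c d i = q' ↔ i = 3) := e4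
    simp only [e1', e2', e3', e4']
  obtain ⟨k, hk, hk0, hkirr, hkA, hkB⟩ := reduce8 hh hG hirr hKG
  -- the vector vanishes outside of the eight elements
  have hsum : ∀ B ⊆ G, ∑ e ∈ B ∩ K, vec p p' q q' e =
      ∑ e ∈ B, vec p p' q q' e := by
    intro B _
    refine sum_subset inter_subset_left ?_
    intro e he hne
    have h1 : e ∉ K := fun h2 => hne (mem_inter.2 ⟨he, h2⟩)
    have n0 : e ≠ p := fun h2 => h1 (h2 ▸ hmem 0 (by norm_num))
    have n1 : e ≠ p' := fun h2 => h1 (h2 ▸ hmem 1 (by norm_num))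
    have n2 : e ≠ q := fun h2 => h1 (h2 ▸ hmem 2 (by norm_num))
    have n3 : e ≠ q' := fun h2 => h1 (h2 ▸ hmem 3 (by norm_num))
    unfold vec
    rw [if_neg n0, if_neg n1, if_neg n2, if_neg n3]
    norm_num
  have hin : ∀ {B A : Finset α} {e : α}, B ∩ K = A →
      e ∈ K → (e ∈ B ↔ e ∈ A) := by
    intro B A e h1 h2
    rw [← h1, mem_inter]
    exact ⟨fun h3 => ⟨h3, h2⟩, fun h3 => h3.1⟩
  have ht8 : t < 8 := by omega
  refine no8 hk hk0 hkirr ?_ (cc p p' q q' a b c d) hc hKd (vec p p' q q') ?_ ?_ ?_ ?_ ?_ ?_ ?_ ?_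
    t ht ?_ ?_
  · intro A hA
    obtain ⟨B, hB, _, h2⟩ := hkA A hA
    rw [h2]; exact h3 B hB
  · rw [hx 0 (by norm_num)]; norm_num
  · rw [hx 1 (by norm_num)]; norm_num
  · rw [hx 2 (by norm_num)]; norm_num
  · rw [hx 3 (by norm_num)]; norm_num
  · intro i hi h4
    rw [hx i hi, if_neg (by omega), if_neg (by omega), if_neg (by omega), if_neg (by omega)]
    norm_num
  · intro A hA
    obtain ⟨B, hB, h1, h2⟩ := hkA A hA
    rw [h2, ← h1, hsum B hB]; exact hv.le B hB
  · intro A hA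
    obtain ⟨B, hB, h1, h2⟩ := hkA A hA
    rw [h2, ← h1, hsum B hB]; exact hv.neg_le B hB
  · intro A hA hsep h4
    obtain ⟨B, hB, h1, h2⟩ := hkA A hA
    have h5 : cc p p' q q' a b c d 4 ∈ B ↔ cc p p' q q' a b c d 5 ∈ B :=
      htie B hB (by rw [← h2, ← h4, ← h1, hsum B hB])
    rw [hin h1 (hmem 4 (by norm_num)), hin h1 (hmem 5 (by norm_num))] at h5
    rcases hsep with h6 | h6
    · exact h6.2 (h5.1 h6.1)
    · exact h6.2 (h5.2 h6.1)
  · intro A hA hsep h4
    obtain ⟨B, hB, h1, h2⟩ := hkA A hA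
    have h5 : cc p p' q q' a b c d 6 ∈ B ↔ cc p p' q q' a b c d t ∈ B :=
      hmtie B hB (by rw [← h2, ← h4, ← h1, hsum B hB])
    rw [hin h1 (hmem 6 (by norm_num)), hin h1 (hmem t ht8)] at h5
    rcases hsep with h6 | h6
    · exact h6.2 (h5.1 h6.1)
    · exact h6.2 (h5.2 h6.1)
  · intro y hy
    have h1 := hno3 _ (V.extend hkB hy)
    refine lt_of_le_of_lt (card_le_card ?_) h1
    intro e he
    obtain ⟨h2, h4⟩ := mem_filter.1 he
    refine mem_filter.2 ⟨hKG h2, ?_⟩
    show (if e ∈ K then y e else 0) = 1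
    rw [if_pos h2]; exact h4

theorem three_shared {α : Type} [DecidableEq α] {G : Finset α} {h : Finset α → ℤ} (hh : Sub G h)
    (hG : h G = 0) (hirr : ∀ A ⊆ G, A ≠ ∅ → A ≠ G → 1 ≤ h A) (hc : 8 ≤ G.card)
    (h3 : ∀ A ⊆ G, h A ≤ 3)
    (hno3 : ∀ y : α → ℤ, V G h y → (G.filter (fun e => y e = 1)).card < 3)
    {p p' q q' a b c : α} (hsub : ∀ e ∈ [p, p', q, q', a, b, c], e ∈ G)
    (hnd : [p, p', q, q', a, b, c].Nodup) (hv : V G h (vec p p' q q'))
    (htie : ∀ X ⊆ G, ∑ e ∈ X, vec p p' q q' e = h X → (a ∈ X ↔ b ∈ X))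
    (hmtie : ∀ X ⊆ G, -∑ e ∈ X, vec p p' q q' e = h X → (c ∈ X ↔ b ∈ X)) : False := by
  have h7 : ([p, p', q, q', a, b, c].toFinset).card < G.card := by
    have := List.toFinset_card_le [p, p', q, q', a, b, c]
    simp only [List.length_cons, List.length_nil] at this
    omega
  obtain ⟨d, hd, hd'⟩ := exists_mem_notMem_of_card_lt_card h7
  have hd2 : d ∉ [p, p', q, q', a, b, c] := fun h8 => hd' (List.mem_toFinset.2 h8)
  refine three_core hh hG hirr h3 hno3 (p := p) (p' := p') (q := q) (q' := q') (a := a) (b := b)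
    (c := c) (d := d) ?_ ?_ hv htie 5 (Or.inl rfl) hmtie
  · intro e he
    have h9 : [p, p', q, q', a, b, c, d] = [p, p', q, q', a, b, c] ++ [d] := rfl
    rw [h9, List.mem_append] at he
    rcases he with he | he
    · exact hsub e he
    · rw [List.mem_singleton.1 he]; exact hd
  · have h9 : [p, p', q, q', a, b, c, d] = [p, p', q, q', a, b, c] ++ [d] := rfl
    rw [h9, List.nodup_append]
    refine ⟨hnd, List.nodup_singleton d, ?_⟩
    intro x hx y hy
    rw [List.mem_singleton.1 hy]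
    exact fun h10 => hd2 (h10 ▸ hx)

/-- irreducible functions with values at most three on at least eight elements -/
theorem base_three {α : Type} [DecidableEq α] {G : Finset α} {h : Finset α → ℤ} (hh : Sub G h)
    (hG : h G = 0) (hirr : ∀ A ⊆ G, A ≠ ∅ → A ≠ G → 1 ≤ h A) (hc : 8 ≤ G.card)
    (h3 : ∀ A ⊆ G, h A ≤ 3) : ∃ x, P901b45e.Sol G h x := by
  by_contra hno
  have hno3 : ∀ y : α → ℤ, V G h y → (G.filter (fun e => y e = 1)).card < 3 :=
    fun y hy => V.big hh hG h3 hno hy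
  have hcard : ¬ G.card ≤ 1 := by omega
  by_cases hfour : ∃ p ∈ G, ∃ p' ∈ G, ∃ q ∈ G, ∃ q' ∈ G, p ≠ p' ∧ q ≠ q' ∧ p ≠ q ∧ p ≠ q' ∧
        p' ≠ q ∧ p' ≠ q' ∧ ∀ A ⊆ G, ∑ e ∈ A, vec p p' q q' e ≤ h A ∧
          -∑ e ∈ A, vec p p' q q' e ≤ h A
  swap
  · exact hno (sol_of_no_four hh hG hirr hcard hfour)
  obtain ⟨p, hp, p', hp', q, hq, q', hq', a1, a2, a3, a4, a5, a6, h4⟩ := hfour
  have hval := vec_val a1 a2 a3 a4 a5 a6
  have hv : V G h (vec p p' q q') := by
    refine ⟨fun A hA => (h4 A hA).1, fun A hA => (h4 A hA).2, fun e _ => ?_⟩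
    rcases hval e with h5 | h5 | h5
    · exact Or.inl h5
    · exact Or.inr (Or.inl h5)
    · exact Or.inr (Or.inr h5.1)
  have hz : ∀ e, vec p p' q q' e = 0 → e ≠ p ∧ e ≠ p' ∧ e ≠ q ∧ e ≠ q' := by
    intro e h5
    rcases hval e with h6 | h6 | h6
    · omega
    · omega
    · exact h6.2
  -- the two tied pairs
  obtain ⟨i, hi, j, hj, hij, hi0, hj0, ht1⟩ := hv.tie hh hG hno
  obtain ⟨k, hk, l, hl, hkl, hk0, hl0, ht2⟩ := hv.mtie hh hG hno
  have zi := hz i hi0
  have zj := hz j hj0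
  have zk := hz k hk0
  have zl := hz l hl0
  -- the pairs are different
  have hsame : ∀ u v : α, u ∈ G → v ∈ G → u ≠ v → vec p p' q q' u = 0 → vec p p' q q' v = 0 →
      (∀ X ⊆ G, ∑ e ∈ X, vec p p' q q' e = h X → (u ∈ X ↔ v ∈ X)) →
      (∀ X ⊆ G, -∑ e ∈ X, vec p p' q q' e = h X → (u ∈ X ↔ v ∈ X)) → False := by
    intro u v hu hv' huv hu0 hv0 t1 t2
    have hw := hv.add huv (Or.inl hu0) (Or.inl hv0) (fun X hX h5 => (t1 X hX h5).1)
      (fun X hX h5 => (t2 X hX h5).2)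
    have h5 := hno3 _ hw
    have zu := hz u hu0
    have zv := hz v hv0
    have h6 : ({p, p', u} : Finset α) ⊆ G.filter (fun e => vec p p' q q' e + root u v e = 1) := by
      intro e he
      simp only [mem_insert, mem_singleton] at he
      rcases he with rfl | rfl | rfl
      · refine mem_filter.2 ⟨hp, ?_⟩
        unfold vec root
        rw [if_pos rfl, if_neg a1, if_neg a3, if_neg a4, if_neg zu.1.symm, if_neg zv.1.symm]
        norm_num
      · refine mem_filter.2 ⟨hp', ?_⟩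
        unfold vec root
        rw [if_neg a1.symm, if_pos rfl, if_neg a5, if_neg a6, if_neg zu.2.1.symm,
          if_neg zv.2.1.symm]
        norm_num
      · refine mem_filter.2 ⟨hu, ?_⟩
        rw [hu0]
        unfold root
        rw [if_pos rfl, if_neg huv]
        norm_num
    have h7 := card_le_card h6
    have h8 : ({p, p', u} : Finset α).card = 3 := by
      rw [card_insert_of_notMem, card_insert_of_notMem, card_singleton]
      · rw [mem_singleton]; exact zu.2.1.symm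
      · rw [mem_insert, mem_singleton]; push Not
        exact ⟨a1, zu.1.symm⟩
    omega
  have ht1' : ∀ X ⊆ G, ∑ e ∈ X, vec p p' q q' e = h X → (j ∈ X ↔ i ∈ X) :=
    fun X hX h5 => (ht1 X hX h5).symm
  have ht2' : ∀ X ⊆ G, -∑ e ∈ X, vec p p' q q' e = h X → (l ∈ X ↔ k ∈ X) :=
    fun X hX h5 => (ht2 X hX h5).symm
  have hshared : ∀ a b c : α, a ∈ G → b ∈ G → c ∈ G → vec p p' q q' a = 0 →
      vec p p' q q' b = 0 → vec p p' q q' c = 0 → a ≠ b → a ≠ c → b ≠ c →
      (∀ X ⊆ G, ∑ e ∈ X, vec p p' q q' e = h X → (a ∈ X ↔ b ∈ X)) →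
      (∀ X ⊆ G, -∑ e ∈ X, vec p p' q q' e = h X → (c ∈ X ↔ b ∈ X)) → False := by
    intro a b c ha hb hc' ha0 hb0 hc0 hab hac hbc t1 t2
    have za := hz a ha0
    have zb := hz b hb0
    have zc := hz c hc0
    refine three_shared hh hG hirr hc h3 hno3 (p := p) (p' := p') (q := q) (q' := q') (a := a)
      (b := b) (c := c) ?_ ?_ hv t1 t2
    · intro e he
      simp only [List.mem_cons, List.not_mem_nil, or_false] at he
      rcases he with rfl | rfl | rfl | rfl | rfl | rfl | rfl <;> assumption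
    · simp only [List.nodup_cons, List.mem_cons, List.not_mem_nil, or_false, not_or,
        not_false_eq_true, List.nodup_nil, and_true]
      exact ⟨⟨a1, a3, a4, za.1.symm, zb.1.symm, zc.1.symm⟩,
        ⟨a5, a6, za.2.1.symm, zb.2.1.symm, zc.2.1.symm⟩,
        ⟨a2, za.2.2.1.symm, zb.2.2.1.symm, zc.2.2.1.symm⟩,
        ⟨za.2.2.2.symm, zb.2.2.2.symm, zc.2.2.2.symm⟩, ⟨hab, hac⟩, hbc⟩
  by_cases c1 : k = i
  · subst c1
    by_cases c2 : l = j
    · subst c2
      exact hsame k l hk hl hkl hk0 hl0 ht1 ht2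
    · exact hshared j k l hj hk hl hj0 hk0 hl0 hij.symm (Ne.symm c2) hkl ht1' ht2'
  by_cases c3 : k = j
  · subst c3
    by_cases c2 : l = i
    · subst c2
      exact hsame k l hk hl hkl hk0 hl0 ht1' ht2
    · exact hshared i k l hi hk hl hi0 hk0 hl0 hij (Ne.symm c2) hkl ht1 ht2'
  by_cases c4 : l = i
  · subst c4
    exact hshared j l k hj hl hk hj0 hl0 hk0 hij.symm (Ne.symm c3) hkl.symm ht1' ht2
  by_cases c5 : l = j
  · subst c5
    exact hshared i l k hi hl hk hi0 hl0 hk0 hij (Ne.symm c1) hkl.symm ht1 ht2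
  -- disjoint pairs
  refine three_core hh hG hirr h3 hno3 (p := p) (p' := p') (q := q) (q' := q') (a := i) (b := j)
    (c := k) (d := l) ?_ ?_ hv ht1 7 (Or.inr rfl) ht2
  · intro e he
    simp only [List.mem_cons, List.not_mem_nil, or_false] at he
    rcases he with rfl | rfl | rfl | rfl | rfl | rfl | rfl | rfl <;> assumption
  · simp only [List.nodup_cons, List.mem_cons, List.not_mem_nil, or_false, not_or,
      not_false_eq_true, List.nodup_nil, and_true]
    exact ⟨⟨a1, a3, a4, zi.1.symm, zj.1.symm, zk.1.symm, zl.1.symm⟩,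
      ⟨a5, a6, zi.2.1.symm, zj.2.1.symm, zk.2.1.symm, zl.2.1.symm⟩,
      ⟨a2, zi.2.2.1.symm, zj.2.2.1.symm, zk.2.2.1.symm, zl.2.2.1.symm⟩,
      ⟨zi.2.2.2.symm, zj.2.2.2.symm, zk.2.2.2.symm, zl.2.2.2.symm⟩,
      ⟨hij, Ne.symm c1, Ne.symm c4⟩, ⟨Ne.symm c3, Ne.symm c5⟩, hkl⟩

end Pool.Agent.P901b45f
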